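import Pool.Agent.KS6_29.Half

set_option autoImplicit false

/-! Averages of convolution inequalities. -/

namespace Pool.Agent.KS6_29

open MeasureTheory Set Pool.Agent.W184

theorem avg_le4 {K G H : ℝ → ℝ} {T U B : ℝ} (hT : 0 ≤ T) (hU : 0 ≤ U) (hB : 0 ≤ B)
    (hKc : Continuous K) (hK0 : ∀ w, 0 ≤ K w) (hKi : Integrable fun w => K w * (1 + w ^ 2) ^ 2)
    (hKi0 : Integrable K)
    (hGc : Continuous G) (hG0 : ∀ x, 0 ≤ G x) (hGB : ∀ x, G x ≤ B * (1 + x ^ 2) ^ 2)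
    (hHc : Continuous H) (hH : ∀ t ∈ Icc 0 T, H t ≤ ∫ w, K w * G (t + w)) :
    ∫ t in (0:ℝ)..T, H t ≤ (∫ w, K w) * (∫ t in (-U)..(T + U), G t) +
      T * (4 * B * (1 + T ^ 2) ^ 2) * ∫ w in {w : ℝ | U < |w|}, K w * (1 + w ^ 2) ^ 2 := by
  have hcont : Continuous fun q : ℝ × ℝ => K q.2 * G (q.1 + q.2) := by fun_prop
  have hbd : ∀ t ∈ Ioc 0 T, ∀ w, K w * G (t + w) ≤ 4 * B * (1 + T ^ 2) ^ 2 * (K w * (1 + w ^ 2) ^ 2) := by
    intro t ht w
    have h1 : G (t + w) ≤ B * (4 * (1 + T ^ 2) ^ 2 * (1 + w ^ 2) ^ 2) := by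
      refine (hGB _).trans ?_
      refine mul_le_mul_of_nonneg_left ?_ hB
      have h2 : 1 + (t + w) ^ 2 ≤ 2 * (1 + T ^ 2) * (1 + w ^ 2) := by
        have h3 : t ^ 2 ≤ T ^ 2 := pow_le_pow_left₀ ht.1.le ht.2 2
        nlinarith [sq_nonneg (t - w), mul_nonneg (sq_nonneg T) (sq_nonneg w)]
      calc (1 + (t + w) ^ 2) ^ 2 ≤ (2 * (1 + T ^ 2) * (1 + w ^ 2)) ^ 2 :=
            pow_le_pow_left₀ (by positivity) h2 2
        _ = _ := by ring
    calc K w * G (t + w) ≤ K w * (B * (4 * (1 + T ^ 2) ^ 2 * (1 + w ^ 2) ^ 2)) :=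
          mul_le_mul_of_nonneg_left h1 (hK0 w)
      _ = _ := by ring
  have hint : Integrable (fun q : ℝ × ℝ => K q.2 * G (q.1 + q.2))
      ((volume.restrict (Ioc 0 T)).prod volume) := by
    have h1 : Integrable (fun q : ℝ × ℝ => (1:ℝ) * (4 * B * (1 + T ^ 2) ^ 2 * (K q.2 * (1 + q.2 ^ 2) ^ 2)))
        ((volume.restrict (Ioc 0 T)).prod volume) :=
      Integrable.mul_prod (integrable_const (1:ℝ)) (hKi.const_mul _)
    refine h1.mono' hcont.aestronglyMeasurable ?_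
    have h2 : ((volume.restrict (Ioc 0 T)).prod (volume : Measure ℝ)) =
        (volume.prod volume).restrict (Ioc (0:ℝ) T ×ˢ univ) := by
      rw [← Measure.prod_restrict, Measure.restrict_univ]
    rw [h2]
    refine (ae_restrict_mem (measurableSet_Ioc.prod MeasurableSet.univ)).mono fun q hq => ?_
    rw [Real.norm_of_nonneg (mul_nonneg (hK0 _) (hG0 _)), one_mul]
    exact hbd q.1 hq.1 q.2
  have s1 : ∫ t in (0:ℝ)..T, H t ≤ ∫ t in Ioc 0 T, ∫ w, K w * G (t + w) := by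
    rw [intervalIntegral.integral_of_le hT]
    refine setIntegral_mono_on ?_ ?_ measurableSet_Ioc ?_
    · exact (hHc.integrableOn_Icc (a := 0) (b := T)).mono_set Ioc_subset_Icc_self
    · exact hint.integral_prod_left
    · intro t ht
      exact hH t (Ioc_subset_Icc_self ht)
  have s2 : ∫ t in Ioc 0 T, ∫ w, K w * G (t + w) = ∫ w, ∫ t in Ioc 0 T, K w * G (t + w) :=
    integral_integral_swap hint
  rw [s2] at s1
  refine s1.trans ?_
  have hms : MeasurableSet {w : ℝ | U < |w|} := measurableSet_lt measurable_const measurable_abs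
  set E : ℝ := ∫ t in (-U)..(T + U), G t with hE
  have hE0 : 0 ≤ E := intervalIntegral.integral_nonneg (by linarith) fun x _ => hG0 x
  have hgi : Integrable fun w => K w * E + ({w : ℝ | U < |w|}).indicator
      (fun w => T * (4 * B * (1 + T ^ 2) ^ 2) * (K w * (1 + w ^ 2) ^ 2)) w :=
    (hKi0.mul_const E).add ((hKi.const_mul _).indicator hms)
  have s3 : ∫ w, ∫ t in Ioc 0 T, K w * G (t + w) ≤ ∫ w, (K w * E + ({w : ℝ | U < |w|}).indicator
      (fun w => T * (4 * B * (1 + T ^ 2) ^ 2) * (K w * (1 + w ^ 2) ^ 2)) w) := by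
    refine integral_mono_of_nonneg (Filter.Eventually.of_forall fun w => ?_) hgi
      (Filter.Eventually.of_forall fun w => ?_)
    · exact integral_nonneg fun t => mul_nonneg (hK0 w) (hG0 _)
    · simp only
      have hcw : Continuous fun t => K w * G (t + w) := by fun_prop
      by_cases hw : U < |w|
      · rw [indicator_of_mem (show w ∈ {w : ℝ | U < |w|} from hw)]
        have h4 : ∫ t in Ioc 0 T, K w * G (t + w) ≤
            ∫ t in Ioc 0 T, 4 * B * (1 + T ^ 2) ^ 2 * (K w * (1 + w ^ 2) ^ 2) := by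
          refine setIntegral_mono_on ?_ ?_ measurableSet_Ioc fun t ht => hbd t ht w
          · exact (hcw.integrableOn_Icc (a := 0) (b := T)).mono_set Ioc_subset_Icc_self
          · exact integrableOn_const (by simp)
        rw [setIntegral_const, Measure.real, Real.volume_Ioc, sub_zero,
          ENNReal.toReal_ofReal hT, smul_eq_mul] at h4
        have h5 := mul_nonneg (hK0 w) hE0
        calc ∫ t in Ioc 0 T, K w * G (t + w) ≤ T * (4 * B * (1 + T ^ 2) ^ 2 * (K w * (1 + w ^ 2) ^ 2)) := h4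
          _ = T * (4 * B * (1 + T ^ 2) ^ 2) * (K w * (1 + w ^ 2) ^ 2) := by ring
          _ ≤ _ := by linarith
      · rw [indicator_of_notMem (show w ∉ {w : ℝ | U < |w|} from hw), add_zero, integral_const_mul]
        refine mul_le_mul_of_nonneg_left ?_ (hK0 w)
        push Not at hw
        have hw' := abs_le.mp hw
        rw [← intervalIntegral.integral_of_le hT, intervalIntegral.integral_comp_add_right
          (fun x => G x), hE]
        refine intervalIntegral.integral_mono_interval (by linarith) (by linarith) (by linarith)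
          (Filter.Eventually.of_forall fun x => hG0 x) (hGc.intervalIntegrable _ _)
  refine s3.trans (le_of_eq ?_)
  rw [integral_add (hKi0.mul_const E) ((hKi.const_mul _).indicator hms), integral_mul_const,
    integral_indicator hms, integral_const_mul]

lemma tail_int4 {K : ℝ → ℝ} {A U : ℝ} (hA : 0 ≤ A) (hU : 1 ≤ U) (hKc : Continuous K) (hK0 : ∀ w, 0 ≤ K w)
    (hK : ∀ w, K w ≤ A * (1 + w ^ 2) ^ (-(16:ℝ))) :
    (Integrable fun w => K w * (1 + w ^ 2) ^ 2) ∧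
    ∫ w in {w : ℝ | U < |w|}, K w * (1 + w ^ 2) ^ 2 ≤ Real.pi * A * (U ^ 26)⁻¹ := by
  have hi := integrable_inv_one_add_sq
  have hp : ∀ w : ℝ, (1 + w ^ 2) ^ (-(16:ℝ)) = ((1 + w ^ 2)⁻¹) ^ 16 := by
    intro w
    have h0 : 0 < 1 + w ^ 2 := by positivity
    rw [Real.rpow_neg h0.le, inv_pow]
    norm_num
  have h1 : ∀ w : ℝ, 0 < (1 + w ^ 2)⁻¹ ∧ (1 + w ^ 2)⁻¹ ≤ 1 := by
    intro w
    have h0 : 0 < 1 + w ^ 2 := by positivity
    refine ⟨by positivity, ?_⟩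
    rw [inv_le_one_iff₀]; right; nlinarith [sq_nonneg w]
  have hb : ∀ w, K w * (1 + w ^ 2) ^ 2 ≤ A * ((1 + w ^ 2)⁻¹) ^ 13 * (1 + w ^ 2)⁻¹ := by
    intro w
    have h0 : 0 < 1 + w ^ 2 := by positivity
    calc K w * (1 + w ^ 2) ^ 2 ≤ (A * (1 + w ^ 2) ^ (-(16:ℝ))) * (1 + w ^ 2) ^ 2 :=
          mul_le_mul_of_nonneg_right (hK w) (by positivity)
      _ = A * ((1 + w ^ 2)⁻¹) ^ 13 * (1 + w ^ 2)⁻¹ := by rw [hp]; field_simp
  have i2 : Integrable fun w => K w * (1 + w ^ 2) ^ 2 := by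
    refine (hi.const_mul A).mono' (by fun_prop) (Filter.Eventually.of_forall fun w => ?_)
    have h2 : 0 ≤ (1 + w ^ 2) ^ 2 := by positivity
    rw [Real.norm_of_nonneg (mul_nonneg (hK0 w) h2)]
    refine (hb w).trans ?_
    have h3 : ((1 + w ^ 2)⁻¹) ^ 13 ≤ 1 := pow_le_one₀ (h1 w).1.le (h1 w).2
    have h4 := (h1 w).1
    nlinarith [mul_nonneg hA h4.le]
  refine ⟨i2, ?_⟩
  have hms : MeasurableSet {w : ℝ | U < |w|} := measurableSet_lt measurable_const measurable_abs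
  have hU0 : 0 < U := by linarith
  have b1 : ∫ w in {w : ℝ | U < |w|}, K w * (1 + w ^ 2) ^ 2 ≤
      ∫ w in {w : ℝ | U < |w|}, A * (U ^ 26)⁻¹ * (1 + w ^ 2)⁻¹ := by
    refine setIntegral_mono_on i2.integrableOn (hi.const_mul _).integrableOn hms fun w hw => ?_
    have hw' : U < |w| := hw
    refine (hb w).trans ?_
    refine mul_le_mul_of_nonneg_right (mul_le_mul_of_nonneg_left ?_ hA) (h1 w).1.le
    rw [inv_pow]
    refine inv_anti₀ (by positivity) ?_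
    have h5 : U ^ 2 ≤ 1 + w ^ 2 := by
      have := pow_le_pow_left₀ hU0.le hw'.le 2
      rw [sq_abs] at this
      linarith
    calc U ^ 26 = (U ^ 2) ^ 13 := by ring
      _ ≤ _ := pow_le_pow_left₀ (by positivity) h5 13
  refine b1.trans ?_
  rw [integral_const_mul]
  have b2 : ∫ w in {w : ℝ | U < |w|}, (1 + w ^ 2)⁻¹ ≤ Real.pi := by
    rw [← integral_univ_inv_one_add_sq]
    refine setIntegral_le_integral hi (Filter.Eventually.of_forall fun w => ?_)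
    exact (h1 w).1.le
  have b3 : 0 ≤ A * (U ^ 26)⁻¹ := by positivity
  calc A * (U ^ 26)⁻¹ * ∫ w in {w : ℝ | U < |w|}, (1 + w ^ 2)⁻¹ ≤
      A * (U ^ 26)⁻¹ * Real.pi := mul_le_mul_of_nonneg_left b2 b3
    _ = _ := by ring

/-- `|ζ^P - W|^p` on the line `Re s = σ` -/
noncomputable def qP (P : ℕ) (W : ℂ → ℂ) (p σ t : ℝ) : ℝ :=
  ‖riemannZeta ((σ : ℂ) + t * Complex.I) ^ P - W ((σ : ℂ) + t * Complex.I)‖ ^ p

lemma qP_nonneg (P : ℕ) (W : ℂ → ℂ) (p σ t : ℝ) : 0 ≤ qP P W p σ t := Real.rpow_nonneg (norm_nonneg _) _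

lemma qP_cont {P : ℕ} {W : ℂ → ℂ} (hW : Differentiable ℂ W) {p σ : ℝ} (hp : 0 < p) (hσ : σ < 1) :
    Continuous (qP P W p σ) := by
  unfold qP
  refine Continuous.rpow_const (Continuous.norm ?_) fun _ => Or.inr hp.le
  have h1 : Continuous fun t : ℝ => (σ : ℂ) + t * Complex.I := by fun_prop
  exact ((Pool.Agent.Y755.zeta_cont hσ).pow P).sub (hW.continuous.comp h1)

theorem half_avg {W : ℂ → ℂ} {N C1 C2 p Δ T B : ℝ} {M P : ℕ} (hp : 0 < p) (hN : 1 ≤ N)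
    (hPM : P ≤ M) (hMp : (M : ℝ) * p = 16)
    (hQd : Differentiable ℂ W) (hQ1 : ∀ z : ℂ, 1 / 2 ≤ z.re → z.re ≤ 2 → ‖W z‖ ≤ C1)
    (hQ2 : ∀ z : ℂ, 2 ≤ z.re → ‖riemannZeta z ^ P - W z‖ * N ^ z.re ≤ C2)
    (h0 : 0 < Δ) (h1 : Δ ≤ 1 / 8) (hT : 1 ≤ T) (hB : 0 ≤ B)
    (hGB : ∀ x, qP P W p (1 / 2) x ≤ B * (1 + x ^ 2) ^ 2) :
    ((1 - 8 * Δ) ^ P * N ^ Δ / (1 + Δ) ^ (2 * M)) ^ p * ∫ t in (0:ℝ)..T, qP P W p (1 / 2 + Δ) t ≤
      (∫ t in (-T)..(T + T), qP P W p (1 / 2) t) +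
      T * (4 * B * (1 + T ^ 2) ^ 2) * (Real.pi * (1 / Δ) * (T ^ 26)⁻¹) := by
  have hT0 : 0 < T := by linarith
  set K : ℝ → ℝ := fun w => KP Δ w * (1 + w ^ 2) ^ (-((M:ℝ) * p)) with hK
  have hKe : K = fun w => KP Δ w * (1 + w ^ 2) ^ (-(16:ℝ)) := by rw [hK, hMp]
  have hKc : Continuous K := by
    rw [hKe]
    refine (KP_cont h0).mul ?_
    refine Continuous.rpow_const (by fun_prop) fun w => Or.inl ?_
    positivity
  have hpw : ∀ w : ℝ, (1 + w ^ 2) ^ (-(16:ℝ)) ≤ 1 := fun w =>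
    Real.rpow_le_one_of_one_le_of_nonpos (by nlinarith [sq_nonneg w]) (by norm_num)
  have hK0 : ∀ w, 0 ≤ K w := by
    intro w
    rw [hKe]
    exact mul_nonneg (KP_nonneg h0 w) (by positivity)
  have hKb : ∀ w, K w ≤ (1 / Δ) * (1 + w ^ 2) ^ (-(16:ℝ)) := by
    intro w
    rw [hKe]
    exact mul_le_mul_of_nonneg_right (KP_le h0 w) (by positivity)
  obtain ⟨i1, -, -⟩ := tail_int (A := 1 / Δ) (U := T) (by positivity) hT hKc hK0 hKb
  obtain ⟨i2, i3⟩ := tail_int4 (A := 1 / Δ) (U := T) (by positivity) hT hKc hK0 hKb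
  have hKm : ∫ w, K w ≤ 1 := by
    obtain ⟨j1, j2⟩ := KP_int h0
    rw [← j2]
    refine integral_mono i1 j1 fun w => ?_
    rw [hKe]
    exact mul_le_of_le_one_right (KP_nonneg h0 w) (hpw w)
  have hc0 := qP_cont (P := P) hQd (p := p) (σ := 1 / 2) hp (by norm_num)
  have hc1 := qP_cont (P := P) hQd (p := p) (σ := 1 / 2 + Δ) hp (by linarith)
  set fac : ℝ := ((1 - 8 * Δ) ^ P * N ^ Δ / (1 + Δ) ^ (2 * M)) ^ p with hfac
  have hpt : ∀ t ∈ Set.Icc 0 T, fac * qP P W p (1 / 2 + Δ) t ≤ ∫ w, K w * qP P W p (1 / 2) (t + w) := by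
    intro t _
    exact half_gen hp hN hPM hQd hQ1 hQ2 h0 h1
  have hmain := avg_le4 (K := K) (G := qP P W p (1 / 2)) (H := fun t => fac * qP P W p (1 / 2 + Δ) t)
    (T := T) (U := T) (B := B) hT0.le (by linarith) hB hKc hK0 i2 i1 hc0 (qP_nonneg _ _ _ _) hGB
    (continuous_const.mul hc1) hpt
  rw [intervalIntegral.integral_const_mul] at hmain
  refine hmain.trans (add_le_add ?_ (mul_le_mul_of_nonneg_left i3 (by positivity)))
  have hE0 : 0 ≤ ∫ t in (-T)..(T + T), qP P W p (1 / 2) t :=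
    intervalIntegral.integral_nonneg (by linarith) fun x _ => qP_nonneg _ _ _ _ _
  calc (∫ w, K w) * ∫ t in (-T)..(T + T), qP P W p (1 / 2) t ≤
      1 * ∫ t in (-T)..(T + T), qP P W p (1 / 2) t := mul_le_mul_of_nonneg_right hKm hE0
    _ = _ := one_mul _

end Pool.Agent.KS6_29
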