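import Pool.Agent.KS6_29.Coef

set_option autoImplicit false

/-! Moments of rational order `2P/q ≤ 4` to the right of the critical line, with an exponential rate. -/

namespace Pool.Agent.KS6_29

open MeasureTheory Finset Filter Topology Pool.Agent.H306R2 Pool.Agent.W184
open Pool.Agent.Y755 (DD g2 DD_low DD_asym DD_ge_one g2_summable g2_nonneg wδ)
open Pool.Agent.H998_TS
open Pool.Agent.H306R2.SM (cl)

/-- the upper bound on the critical line -/
lemma online {κ : ℝ} (h0 : 0 < κ) (h2 : κ ≤ 2) : ∃ C : ℝ, 0 < C ∧ ∀ᶠ T : ℝ in atTop,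
    ∫ t in (0:ℝ)..T, zn (1 / 2) t ^ (2 * κ) ≤ C * (T * Real.log T ^ (κ ^ 2)) := by
  have hz : ∀ t : ℝ, zn (1 / 2) t = ‖riemannZeta (cl t)‖ := by
    intro t
    unfold zn cl
    congr 2
    push_cast
    ring
  rcases h2.lt_or_eq with h | h
  · obtain ⟨η1, hη1, H⟩ := Pool.Agent.H998_TS.all (β := 2 * κ) (by linarith) (by linarith) 0
    obtain ⟨C, hC, H2⟩ := H η1 hη1 le_rfl
    refine ⟨C, hC, ?_⟩
    filter_upwards [H2 0] with T hT
    have e1 : (2 * κ) ^ 2 / 4 = κ ^ 2 := by ring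
    rw [add_zero, e1] at hT
    refine le_trans (le_of_eq ?_) hT
    refine intervalIntegral.integral_congr fun t _ => ?_
    simp only [Pool.Agent.H998_TS.FF, pow_zero, mul_one, hz]
  · obtain ⟨C, hC, H⟩ := four_all
    refine ⟨C, hC, ?_⟩
    filter_upwards [H] with T hT
    have e1 : Real.log T ^ (κ ^ 2) = Real.log T ^ 4 := by
      rw [h, show ((2:ℝ) ^ 2) = ((4:ℕ):ℝ) by norm_num, Real.rpow_natCast]
    rw [e1]
    refine le_trans (le_of_eq ?_) hT
    refine intervalIntegral.integral_congr fun t _ => ?_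
    simp only [hz]
    rw [h, show (2:ℝ) * 2 = ((4:ℕ):ℝ) by norm_num, Real.rpow_natCast]

/-- the upper bound for the Dirichlet series -/
lemma DD_up {α : ℝ} (hα : 0 < α) : ∃ C : ℝ, 0 < C ∧ ∀ δ : ℝ, 0 < δ → δ ≤ 1 → DD α δ ≤ C * δ ^ (-(α ^ 2)) := by
  have hmono : ∀ δ δ' : ℝ, 0 < δ → δ ≤ δ' → DD α δ' ≤ DD α δ := by
    intro δ δ' h0 h1
    unfold DD
    refine Summable.tsum_le_tsum (fun n => ?_) (g2_summable hα (by linarith)) (g2_summable hα h0)
    unfold g2 wδ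
    rcases Nat.eq_zero_or_pos n with h | h
    · subst h; simp
    · have h3 : (1:ℝ) ≤ n := by exact_mod_cast h
      refine mul_le_mul_of_nonneg_left ?_ (sq_nonneg _)
      refine mul_le_mul_of_nonneg_right ?_ (by positivity)
      exact Real.rpow_le_rpow_of_exponent_le h3 (by linarith)
  have h1 := DD_asym hα (δ := fun T : ℝ => 1 / T) (by
    filter_upwards [eventually_gt_atTop 0] with T hT
    positivity) (by simpa using tendsto_inv_atTop_zero)
  have h2 := h1.eventually (gt_mem_nhds (show aF α < aF α + 1 by linarith))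
  obtain ⟨T0, hT0⟩ := (h2.and (eventually_ge_atTop 1)).exists_forall_of_atTop
  set T1 := max T0 1 with hT1
  have hT1p : 1 ≤ T1 := le_max_right _ _
  have hA := aF_pos hα
  have hD1 := DD_ge_one hα (show 0 < 1 / T1 by positivity)
  refine ⟨(aF α + 1) + DD α (1 / T1), by linarith, fun δ hδ hδ1 => ?_⟩
  have hp : 0 < δ ^ (-(α ^ 2)) := Real.rpow_pos_of_pos hδ _
  rcases le_total δ (1 / T1) with h | h
  · have h3 : T1 ≤ 1 / δ := by
      rw [le_div_iff₀ hδ]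
      rw [le_div_iff₀ (by linarith)] at h
      linarith
    have h4 := (hT0 (1 / δ) ((le_max_left _ _).trans h3)).1
    rw [one_div_one_div] at h4
    have h5 : (2 * δ) ^ (α ^ 2) * δ ^ (-(α ^ 2)) = 2 ^ (α ^ 2) := by
      rw [Real.mul_rpow (by norm_num) hδ.le, mul_assoc, ← Real.rpow_add hδ]
      simp
    have h6 : (1:ℝ) ≤ 2 ^ (α ^ 2) := Real.one_le_rpow (by norm_num) (sq_nonneg _)
    have h7 := DD_ge_one hα hδ
    have h8 : DD α δ ≤ DD α δ * ((2 * δ) ^ (α ^ 2) * δ ^ (-(α ^ 2))) := by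
      rw [h5]; nlinarith
    calc DD α δ ≤ ((2 * δ) ^ (α ^ 2) * DD α δ) * δ ^ (-(α ^ 2)) := by linarith
      _ ≤ (aF α + 1) * δ ^ (-(α ^ 2)) := mul_le_mul_of_nonneg_right h4.le hp.le
      _ ≤ _ := by nlinarith
  · have h3 := hmono (1 / T1) δ (by positivity) h
    have h4 : 1 ≤ δ ^ (-(α ^ 2)) := Real.one_le_rpow_of_pos_of_le_one_of_nonpos hδ hδ1 (by nlinarith [sq_nonneg α])
    nlinarith

lemma g2_eq (κ δ : ℝ) {n : ℕ} (hn : 1 ≤ n) : g2 κ δ n = dv κ n ^ 2 * (n:ℝ) ^ (-(2 * (1 / 2 + δ))) := by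
  have hn0 : (0:ℝ) < n := by exact_mod_cast hn
  unfold g2 wδ
  rw [mul_one_div, ← Real.rpow_sub_one hn0.ne']
  congr 2; ring

/-- the partial sum -/
noncomputable def Sd (κ δ : ℝ) (N : ℕ) : ℝ := ∑ n ∈ Icc 1 N, dv κ n ^ 2 * (n : ℝ) ^ (-(2 * (1 / 2 + δ)))

lemma Sd_eq (κ δ : ℝ) (N : ℕ) : Sd κ δ N = ∑ n ∈ Icc 1 N, g2 κ δ n := by
  unfold Sd
  refine sum_congr rfl fun n hn => ?_
  rw [mem_Icc] at hn
  rw [g2_eq κ δ hn.1]

lemma Sd_nonneg (κ δ : ℝ) (N : ℕ) : 0 ≤ Sd κ δ N := sum_nonneg fun n _ => by positivity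

lemma Sd_le {κ δ : ℝ} (hκ : 0 < κ) (hδ : 0 < δ) (N : ℕ) : Sd κ δ N ≤ DD κ δ := by
  rw [Sd_eq]
  exact (g2_summable hκ hδ).sum_le_tsum _ fun n _ => g2_nonneg κ δ n

/-- the partial sum on the critical line -/
lemma Sd_zero_le {κ : ℝ} (hκ : 0 < κ) : ∃ C : ℝ, 0 < C ∧ ∀ N : ℕ, 3 ≤ N → Sd κ 0 N ≤ C * Real.log N ^ (κ ^ 2) := by
  obtain ⟨C, hC, hD⟩ := DD_up hκ
  refine ⟨Real.exp 2 * C, by positivity, fun N hN => ?_⟩
  have hN0 : (3:ℝ) ≤ N := by exact_mod_cast hN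
  have hL : 1 ≤ Real.log N := by
    have h1 := Real.exp_one_lt_d9
    rw [Real.le_log_iff_exp_le (by linarith)]
    linarith
  have hδ : 0 < 1 / Real.log N := by positivity
  have h1 : Sd κ 0 N ≤ Real.exp 2 * Sd κ (1 / Real.log N) N := by
    unfold Sd
    rw [mul_sum]
    refine sum_le_sum fun n hn => ?_
    rw [mem_Icc] at hn
    have hn0 : (0:ℝ) < n := by exact_mod_cast hn.1
    have hnN : (n:ℝ) ≤ N := by exact_mod_cast hn.2
    have h2 : (n:ℝ) ^ (-(2 * (1 / 2 + (0:ℝ)))) ≤ Real.exp 2 * (n:ℝ) ^ (-(2 * (1 / 2 + 1 / Real.log N))) := by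
      rw [Real.rpow_def_of_pos hn0, Real.rpow_def_of_pos hn0, ← Real.exp_add]
      refine Real.exp_le_exp.mpr ?_
      have h3 : Real.log n ≤ Real.log N := Real.log_le_log hn0 hnN
      have h4 : Real.log n * (1 / Real.log N) ≤ 1 := by
        rw [mul_one_div, div_le_one (by linarith)]; exact h3
      nlinarith
    calc dv κ n ^ 2 * (n:ℝ) ^ (-(2 * (1 / 2 + (0:ℝ)))) ≤
        dv κ n ^ 2 * (Real.exp 2 * (n:ℝ) ^ (-(2 * (1 / 2 + 1 / Real.log N)))) :=
          mul_le_mul_of_nonneg_left h2 (sq_nonneg _)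
      _ = _ := by ring
  refine h1.trans ?_
  have h5 := (Sd_le hκ hδ N).trans (hD _ hδ (by rw [div_le_one (by linarith)]; exact hL))
  have h6 : (1 / Real.log N) ^ (-(κ ^ 2)) = Real.log N ^ (κ ^ 2) := by
    rw [one_div, Real.inv_rpow (by linarith), ← Real.rpow_neg (by linarith), neg_neg]
  rw [h6] at h5
  calc Real.exp 2 * Sd κ (1 / Real.log N) N ≤ Real.exp 2 * (C * Real.log N ^ (κ ^ 2)) := by gcongr
    _ = _ := by ring

/-- the tail of the Dirichlet series -/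
lemma tail_le {κ δ : ℝ} (hκ : 0 < κ) (hδ : 0 < δ) {N : ℕ} (hN : 1 ≤ N) :
    DD κ δ - Sd κ δ N ≤ (N:ℝ) ^ (-δ) * DD κ (δ / 2) := by
  have hN0 : (0:ℝ) < N := by exact_mod_cast hN
  have hs := g2_summable hκ hδ
  have hs2 := g2_summable hκ (show 0 < δ / 2 by linarith)
  have h1 : DD κ δ - Sd κ δ N = ∑' n : ℕ, (if n ∈ Icc 1 N then 0 else g2 κ δ n) := by
    rw [Sd_eq]
    unfold DD
    have h4 : ∑' n : ℕ, (if n ∈ Icc 1 N then 0 else g2 κ δ n) =
        ∑' n : ℕ, (g2 κ δ n - (if n ∈ Icc 1 N then g2 κ δ n else 0)) := by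
      refine tsum_congr fun n => ?_
      split_ifs <;> ring
    have hfin : HasSum (fun n => if n ∈ Icc 1 N then g2 κ δ n else 0) (∑ n ∈ Icc 1 N, g2 κ δ n) := by
      have h : HasSum (fun n : ℕ => if n ∈ Icc 1 N then g2 κ δ n else 0)
          (∑ n ∈ Icc 1 N, (if n ∈ Icc 1 N then g2 κ δ n else 0)) :=
        hasSum_sum_of_ne_finset_zero (fun n hn => if_neg hn)
      convert h using 1
      refine sum_congr rfl fun n hn => ?_
      rw [if_pos hn]
    rw [h4, (hs.hasSum.sub hfin).tsum_eq]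
  rw [h1]
  unfold DD
  rw [← tsum_mul_left]
  refine Summable.tsum_le_tsum (fun n => ?_) ?_ (hs2.mul_left _)
  · rcases Nat.eq_zero_or_pos n with h | h
    · subst h
      have : g2 κ δ 0 = 0 := by simp [g2, dv]
      have h' : g2 κ (δ / 2) 0 = 0 := by simp [g2, dv]
      simp [this, h']
    · by_cases hn : n ∈ Icc 1 N
      · rw [if_pos hn]
        exact mul_nonneg (by positivity) (g2_nonneg _ _ _)
      · rw [if_neg hn]
        have hnN : N < n := by
          rw [mem_Icc] at hn; omega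
        have hn0 : (0:ℝ) < n := by exact_mod_cast h
        rw [g2_eq κ δ h, g2_eq κ (δ / 2) h]
        have h5 : (n:ℝ) ^ (-(2 * (1 / 2 + δ))) = (n:ℝ) ^ (-δ) * (n:ℝ) ^ (-(2 * (1 / 2 + δ / 2))) := by
          rw [← Real.rpow_add hn0]; congr 1; ring
        have h6 : (n:ℝ) ^ (-δ) ≤ (N:ℝ) ^ (-δ) :=
          Real.rpow_le_rpow_of_nonpos hN0 (by exact_mod_cast hnN.le) (by linarith)
        rw [h5]
        have h7 : 0 ≤ dv κ n ^ 2 * (n:ℝ) ^ (-(2 * (1 / 2 + δ / 2))) := by positivity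
        nlinarith [mul_le_mul_of_nonneg_right h6 h7]
  · refine Summable.of_nonneg_of_le (fun n => ?_) (fun n => ?_) hs
    · split_ifs
      · exact le_rfl
      · exact g2_nonneg _ _ _
    · split_ifs
      · exact g2_nonneg _ _ _
      · exact le_rfl

end Pool.Agent.KS6_29
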