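import Pool.Graph.R_seed8.W184.MV

set_option autoImplicit false

/-! Mean value theorem for Dirichlet polynomials with arbitrary real coefficients. -/

namespace Pool.Agent.KS6_29

open MeasureTheory Finset Pool.Agent.W184

lemma row_lt {N m : ℕ} (hm : m ∈ Icc 1 N) :
    ∑ n ∈ Icc 1 N, (if n < m then (1:ℝ) / (m - n) else 0) ≤ 1 + Real.log N := by
  rw [mem_Icc] at hm
  rw [← sum_filter]
  have e1 : ∀ n ∈ (Icc 1 N).filter (fun n => n < m), (1:ℝ) / (m - n) = 1 / ((m - n : ℕ) : ℝ) := by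
    intro n hn
    rw [mem_filter] at hn
    rw [Nat.cast_sub hn.2.le]
  rw [sum_congr rfl e1]
  have hinj : Set.InjOn (fun n => m - n) ((Icc 1 N).filter (fun n => n < m) : Finset ℕ) := by
    intro a ha b hb hab
    simp only [coe_filter, mem_Icc, Set.mem_ofPred_eq] at ha hb
    simp only at hab
    omega
  rw [← sum_image (f := fun k : ℕ => (1:ℝ) / k) hinj]
  refine (sum_le_sum_of_subset_of_nonneg ?_ fun i _ _ => by positivity).trans (harm_le N)
  intro k hk
  rw [mem_image] at hk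
  obtain ⟨n, hn, rfl⟩ := hk
  rw [mem_filter, mem_Icc] at hn
  rw [mem_Icc]
  omega

lemma row_gt {N m : ℕ} (hm : m ∈ Icc 1 N) :
    ∑ n ∈ Icc 1 N, (if m < n then (1:ℝ) / (n - m) else 0) ≤ 1 + Real.log N := by
  rw [mem_Icc] at hm
  rw [← sum_filter]
  have e1 : ∀ n ∈ (Icc 1 N).filter (fun n => m < n), (1:ℝ) / (n - m) = 1 / ((n - m : ℕ) : ℝ) := by
    intro n hn
    rw [mem_filter] at hn
    rw [Nat.cast_sub hn.2.le]
  rw [sum_congr rfl e1]
  have hinj : Set.InjOn (fun n => n - m) ((Icc 1 N).filter (fun n => m < n) : Finset ℕ) := by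
    intro a ha b hb hab
    simp only [coe_filter, mem_Icc, Set.mem_ofPred_eq] at ha hb
    simp only at hab
    omega
  rw [← sum_image (f := fun k : ℕ => (1:ℝ) / k) hinj]
  refine (sum_le_sum_of_subset_of_nonneg ?_ fun i _ _ => by positivity).trans (harm_le N)
  intro k hk
  rw [mem_image] at hk
  obtain ⟨n, hn, rfl⟩ := hk
  rw [mem_filter, mem_Icc] at hn
  rw [mem_Icc]
  omega

/-- The mean value theorem, cosine form. -/
theorem mv_gen (a : ℕ → ℝ) (N : ℕ) (A B : ℝ) :
    |(∫ t in A..B, ∑ m ∈ Icc 1 N, ∑ n ∈ Icc 1 N, a m * a n *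
        Real.cos (t * (Real.log m - Real.log n))) - (B - A) * ∑ n ∈ Icc 1 N, a n ^ 2| ≤
      4 * (N * (1 + Real.log N)) * ∑ n ∈ Icc 1 N, a n ^ 2 := by
  have hint : ∀ m n : ℕ, IntervalIntegrable (fun t => a m * a n *
      Real.cos (t * (Real.log m - Real.log n))) volume A B := fun m n =>
    Continuous.intervalIntegrable (by fun_prop) _ _
  have e1 : (∫ t in A..B, ∑ m ∈ Icc 1 N, ∑ n ∈ Icc 1 N, a m * a n *
        Real.cos (t * (Real.log m - Real.log n))) =
      ∑ m ∈ Icc 1 N, ∑ n ∈ Icc 1 N, a m * a n * ∫ t in A..B,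
        Real.cos (t * (Real.log m - Real.log n)) := by
    rw [intervalIntegral.integral_finsetSum fun m _ =>
      Continuous.intervalIntegrable (by fun_prop) _ _]
    refine sum_congr rfl fun m _ => ?_
    rw [intervalIntegral.integral_finsetSum fun n _ => hint m n]
    refine sum_congr rfl fun n _ => ?_
    rw [intervalIntegral.integral_const_mul]
  have e2 : (B - A) * ∑ n ∈ Icc 1 N, a n ^ 2 =
      ∑ m ∈ Icc 1 N, ∑ n ∈ Icc 1 N, if n = m then (B - A) * a n ^ 2 else 0 := by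
    rw [mul_sum]
    refine sum_congr rfl fun m hm => ?_
    rw [sum_ite_eq' (Icc 1 N) m (fun n => (B - A) * a n ^ 2), if_pos hm]
  rw [e1, e2, ← sum_sub_distrib]
  simp_rw [← sum_sub_distrib]
  set w : ℕ → ℕ → ℝ := fun m n => (if n < m then (1:ℝ) / (m - n) else 0) + (if m < n then (1:ℝ) / (n - m) else 0)
    with hw
  have hterm : ∀ m ∈ Icc 1 N, ∀ n ∈ Icc 1 N,
      |a m * a n * (∫ t in A..B, Real.cos (t * (Real.log m - Real.log n))) -
        (if n = m then (B - A) * a n ^ 2 else 0)| ≤ N * (a m ^ 2 * w m n) + N * (a n ^ 2 * w n m) := by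
    intro m hm n hn
    rw [mem_Icc] at hm hn
    have hm0 : (0:ℝ) < m := by exact_mod_cast hm.1
    have hn0 : (0:ℝ) < n := by exact_mod_cast hn.1
    have hmN : (m:ℝ) ≤ N := by exact_mod_cast hm.2
    have hnN : (n:ℝ) ≤ N := by exact_mod_cast hn.2
    have hmn : |a m * a n| * 2 ≤ a m ^ 2 + a n ^ 2 := by
      rw [abs_mul]
      nlinarith [sq_nonneg (|a m| - |a n|), sq_abs (a m), sq_abs (a n)]
    rcases lt_trichotomy m n with h | h | h
    · have hwe : w m n = 1 / ((n:ℝ) - m) := by simp only [hw]; rw [if_neg (by omega), if_pos h, zero_add]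
      have hwe2 : w n m = 1 / ((n:ℝ) - m) := by simp only [hw]; rw [if_pos h, if_neg (by omega), add_zero]
      rw [if_neg (by omega), sub_zero, hwe, hwe2]
      have hg := log_gap hm.1 h
      have hd : (0:ℝ) < n - m := by
        have : (m:ℝ) < n := by exact_mod_cast h
        linarith
      have hgp : 0 < ((n:ℝ) - m) / n := by positivity
      have hx : Real.log m - Real.log n ≠ 0 := by linarith
      have h1 := abs_int_cos (A := A) (B := B) hx
      rw [abs_mul]
      have h2 : 2 / |Real.log m - Real.log n| ≤ 2 * (N * (1 / (n - m))) := by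
        rw [abs_sub_comm, abs_of_pos (by linarith), div_le_iff₀ (by linarith)]
        calc (2:ℝ) = 2 * (n * (1 / (n - m))) * (((n:ℝ) - m) / n) := by field_simp
          _ ≤ 2 * (N * (1 / (n - m))) * (((n:ℝ) - m) / n) := by gcongr
          _ ≤ _ := mul_le_mul_of_nonneg_left hg (by positivity)
      have h3 := mul_le_mul_of_nonneg_left (h1.trans h2) (abs_nonneg (a m * a n))
      refine h3.trans ?_
      have h4 : 0 ≤ N * (1 / ((n:ℝ) - m)) := by positivity
      nlinarith [mul_le_mul_of_nonneg_right hmn h4]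
    · subst h
      have hwe : w m m = 0 := by simp only [hw]; rw [if_neg (by omega), zero_add]
      rw [if_pos rfl, sub_self, hwe]
      simp only [mul_zero, Real.cos_zero]
      rw [intervalIntegral.integral_const, smul_eq_mul, mul_one]
      rw [show a m * a m * (B - A) - (B - A) * a m ^ 2 = 0 by ring, abs_zero, add_zero]
    · have hwe : w m n = 1 / ((m:ℝ) - n) := by simp only [hw]; rw [if_pos h, if_neg (by omega), add_zero]
      have hwe2 : w n m = 1 / ((m:ℝ) - n) := by simp only [hw]; rw [if_neg (by omega), if_pos h, zero_add]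
      rw [if_neg (by omega), sub_zero, hwe, hwe2]
      have hg := log_gap hn.1 h
      have hd : (0:ℝ) < m - n := by
        have : (n:ℝ) < m := by exact_mod_cast h
        linarith
      have hgp : 0 < ((m:ℝ) - n) / m := by positivity
      have hx : Real.log m - Real.log n ≠ 0 := by linarith
      have h1 := abs_int_cos (A := A) (B := B) hx
      rw [abs_mul]
      have h2 : 2 / |Real.log m - Real.log n| ≤ 2 * (N * (1 / (m - n))) := by
        rw [abs_of_pos (by linarith), div_le_iff₀ (by linarith)]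
        calc (2:ℝ) = 2 * (m * (1 / (m - n))) * (((m:ℝ) - n) / m) := by field_simp
          _ ≤ 2 * (N * (1 / (m - n))) * (((m:ℝ) - n) / m) := by gcongr
          _ ≤ _ := mul_le_mul_of_nonneg_left hg (by positivity)
      have h3 := mul_le_mul_of_nonneg_left (h1.trans h2) (abs_nonneg (a m * a n))
      refine h3.trans ?_
      have h4 : 0 ≤ N * (1 / ((m:ℝ) - n)) := by positivity
      nlinarith [mul_le_mul_of_nonneg_right hmn h4]
  refine (abs_sum_le_sum_abs _ _).trans ?_
  refine (sum_le_sum fun m hm => (abs_sum_le_sum_abs _ _).trans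
    (sum_le_sum fun n hn => hterm m hm n hn)).trans ?_
  simp_rw [sum_add_distrib]
  have r0 : ∑ m ∈ Icc 1 N, ∑ n ∈ Icc 1 N, (N:ℝ) * (a m ^ 2 * w m n) ≤
      2 * (N * (1 + Real.log N)) * ∑ n ∈ Icc 1 N, a n ^ 2 := by
    rw [mul_sum]
    refine sum_le_sum fun m hm => ?_
    rw [← mul_sum, ← mul_sum]
    have h1 : ∑ n ∈ Icc 1 N, w m n ≤ 2 * (1 + Real.log N) := by
      simp only [hw]
      rw [sum_add_distrib]
      linarith [row_lt hm, row_gt hm]
    have h2 : 0 ≤ a m ^ 2 := sq_nonneg _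
    calc (N:ℝ) * (a m ^ 2 * ∑ n ∈ Icc 1 N, w m n) ≤ N * (a m ^ 2 * (2 * (1 + Real.log N))) := by gcongr
      _ = _ := by ring
  have r1 : ∑ m ∈ Icc 1 N, ∑ n ∈ Icc 1 N, (N:ℝ) * (a n ^ 2 * w n m) =
      ∑ m ∈ Icc 1 N, ∑ n ∈ Icc 1 N, (N:ℝ) * (a m ^ 2 * w m n) := sum_comm
  rw [r1]
  linarith

/-- mean value theorem -/
theorem mv_DS_gen (g : ℕ → ℝ) (σ : ℝ) (N : ℕ) (A B : ℝ) :
    |(∫ t in A..B, ‖DS g N ((σ : ℂ) + t * Complex.I)‖ ^ 2) -
      (B - A) * ∑ n ∈ Icc 1 N, g n ^ 2 * (n : ℝ) ^ (-(2 * σ))| ≤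
      4 * (N * (1 + Real.log N)) * ∑ n ∈ Icc 1 N, g n ^ 2 * (n : ℝ) ^ (-(2 * σ)) := by
  have h := mv_gen (fun n => g n * (n:ℝ) ^ (-σ)) N A B
  have e : ∀ n ∈ Icc 1 N, (g n * (n:ℝ) ^ (-σ)) ^ 2 = g n ^ 2 * (n : ℝ) ^ (-(2 * σ)) := by
    intro n hn
    rw [mem_Icc] at hn
    have hn0 : (0:ℝ) < n := by exact_mod_cast hn.1
    rw [mul_pow, ← Real.rpow_natCast ((n:ℝ) ^ (-σ)), ← Real.rpow_mul hn0.le]
    congr 2; push_cast; ring
  rw [sum_congr rfl e] at h
  simp_rw [DS_norm_sq]
  exact h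

end Pool.Agent.KS6_29
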