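import Pool.Agent.KS6_29.Avg
import Pool.Agent.KS6_29.MV

set_option autoImplicit false

/-! The Dirichlet polynomial which approximates `ζ^(P/q)`. -/

namespace Pool.Agent.KS6_29

open MeasureTheory Finset Pool.Agent.H306R2 Pool.Agent.W184

lemma Dp_one (s : ℂ) : Dp (1 : ArithmeticFunction ℝ) 1 s = 1 := by
  unfold Dp
  simp

/-- `ζ^P` minus the `q`-th power of the truncation of `ζ^(P/q)`, far to the right -/
theorem zeta_pow_sub_le (P : ℕ) {q N : ℕ} (hq : 1 ≤ q) (hN : 1 ≤ N) :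
    ∃ C : ℝ, ∀ z : ℂ, 2 ≤ z.re →
    ‖riemannZeta z ^ P - DS (dv ((P:ℝ) / (q:ℝ))) N z ^ q‖ * (N:ℝ) ^ z.re ≤ C := by
  refine ⟨(N:ℝ) ^ 2 * ∑' n : ℕ, dv P n * (n:ℝ) ^ (-1 - (1:ℝ)), fun z hz => ?_⟩
  have hN0 : (0:ℝ) < N := by exact_mod_cast hN
  have hN1 : (1:ℝ) ≤ N := by exact_mod_cast hN
  have hκ : (0:ℝ) ≤ (P:ℝ) / (q:ℝ) := by positivity
  have hq0 : (q:ℝ) ≠ 0 := by exact_mod_cast (by omega : q ≠ 0)
  have hqe : (q:ℝ) * ((P:ℝ) / (q:ℝ)) = P := by field_simp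
  set A := tr (dA ((P:ℝ) / (q:ℝ))) (N:ℝ) with hA
  have hAs : ∀ n : ℕ, (N:ℝ) < n → A n = 0 := fun n hn => tr_supp _ _ _ hn
  have e1 : DS (dv ((P:ℝ) / (q:ℝ))) N z = Dp A N z := by
    rw [DS_eq_Dp]
    unfold Dp
    refine sum_congr rfl fun n hn => ?_
    rw [mem_Icc, Nat.floor_natCast] at hn
    rw [hA, tr_apply, if_pos (by exact_mod_cast hn.2), dA_apply]
  obtain ⟨h1, h2⟩ := Dp_pow A N hN1 hAs z q
  have h3 := Dp_hasSum (A ^ q) ((N:ℝ) ^ q) h1 z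
  rw [h2, ← e1] at h3
  have h4 := zetaA_hasSum P 1 1 (fun n hn => by
    rw [ArithmeticFunction.one_apply_ne]
    rintro rfl; norm_num at hn) z (by linarith)
  rw [Dp_one, mul_one, mul_one, ← dA_nat] at h4
  have h5 := HasSum.sub h4 h3
  have hc0 : ∀ n, 0 ≤ (A ^ q) n := fun n => tr_pow_nonneg hκ _ q n
  have hc1 : ∀ n, (A ^ q) n ≤ dv P n := by
    intro n
    have := tr_pow_le hκ (N:ℝ) q n
    rwa [hqe] at this
  have hs2 : Summable fun n : ℕ => dv P n * (n:ℝ) ^ (-1 - (1:ℝ)) := dvJ_summable P one_pos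
  have hdv : ∀ n, 0 ≤ dv (P:ℝ) n := fun n => dv_nonneg (by positivity) n
  have h6 : ‖riemannZeta z ^ P - DS (dv ((P:ℝ) / (q:ℝ))) N z ^ q‖ ≤
      ∑' n : ℕ, ((N:ℝ) ^ 2 * (N:ℝ) ^ (-z.re)) * (dv P n * (n:ℝ) ^ (-1 - (1:ℝ))) := by
    rw [← h5.tsum_eq]
    refine tsum_of_norm_bounded (hs2.mul_left _).hasSum fun n => ?_
    have hnn := hdv n
    rcases Nat.eq_zero_or_pos n with hn | hn
    · subst hn
      rw [LSeries.term_zero, sub_zero, dA_apply]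
      have : dv (P:ℝ) 0 = 0 := by simp [dv]
      rw [this]
      simp
    · have hn0 : (0:ℝ) < n := by exact_mod_cast hn
      have hnc : (n:ℂ) ^ (-z) = 1 / (n:ℂ) ^ z := by rw [Complex.cpow_neg, one_div]
      rw [LSeries.term_of_ne_zero (by omega), toC_apply, hnc, mul_one_div,
        ← sub_div, norm_div, Complex.norm_natCast_cpow_of_pos hn]
      by_cases hnN : n ≤ N
      · have h7 : (A ^ q) n = dA P n := by
          rw [hA, tr_pow_eq _ _ _ n (by exact_mod_cast hnN), dA_pow, hqe]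
        rw [h7, sub_self, norm_zero, zero_div]
        positivity
      · push Not at hnN
        have hnN' : (N:ℝ) < n := by exact_mod_cast hnN
        have h8 : ‖((dA (P:ℝ) n : ℝ) : ℂ) - ((A ^ q) n : ℂ)‖ ≤ dv P n := by
          rw [← Complex.ofReal_sub, Complex.norm_real, dA_apply,
            Real.norm_eq_abs, abs_of_nonneg (by linarith [hc1 n])]
          linarith [hc0 n]
        have h9 : (n:ℝ) ^ z.re = (n:ℝ) ^ (z.re - 2) * (n:ℝ) ^ (2:ℝ) := by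
          rw [← Real.rpow_add hn0]
          congr 1; ring
        have h10 : (N:ℝ) ^ 2 * (N:ℝ) ^ (-z.re) = ((N:ℝ) ^ (z.re - 2))⁻¹ := by
          rw [← Real.rpow_natCast, ← Real.rpow_add hN0, ← Real.rpow_neg hN0.le]
          congr 1; push_cast; ring
        have h15 : (n:ℝ) ^ (-1 - (1:ℝ)) = ((n:ℝ) ^ (2:ℝ))⁻¹ := by
          rw [← Real.rpow_neg hn0.le]; norm_num
        rw [h9, h10, h15]
        have h11 : (N:ℝ) ^ (z.re - 2) ≤ (n:ℝ) ^ (z.re - 2) :=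
          Real.rpow_le_rpow hN0.le hnN'.le (by linarith)
        have h12 : 0 < (N:ℝ) ^ (z.re - 2) := Real.rpow_pos_of_pos hN0 _
        calc ‖((dA (P:ℝ) n : ℝ) : ℂ) - ((A ^ q) n : ℂ)‖ / ((n:ℝ) ^ (z.re - 2) * (n:ℝ) ^ (2:ℝ)) ≤
            dv P n / ((N:ℝ) ^ (z.re - 2) * (n:ℝ) ^ (2:ℝ)) := by gcongr
          _ = _ := by field_simp
  rw [tsum_mul_left] at h6
  have h13 : (N:ℝ) ^ (-z.re) * (N:ℝ) ^ z.re = 1 := by
    rw [← Real.rpow_add hN0]; simp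
  have h14 : 0 ≤ (N:ℝ) ^ z.re := by positivity
  calc ‖riemannZeta z ^ P - DS (dv ((P:ℝ) / (q:ℝ))) N z ^ q‖ * (N:ℝ) ^ z.re ≤
      ((N:ℝ) ^ 2 * (N:ℝ) ^ (-z.re) * ∑' n : ℕ, dv P n * (n:ℝ) ^ (-1 - (1:ℝ))) * (N:ℝ) ^ z.re :=
        mul_le_mul_of_nonneg_right h6 h14
    _ = (N:ℝ) ^ 2 * (∑' n : ℕ, dv P n * (n:ℝ) ^ (-1 - (1:ℝ))) * ((N:ℝ) ^ (-z.re) * (N:ℝ) ^ z.re) := by ring
    _ = _ := by rw [h13, mul_one]

end Pool.Agent.KS6_29
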