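import Pool.Graph.R_seed8.Y755.Fin4
import Pool.Graph.R_pool_sql_team_seeded_620a6dc7.H998_TS.Fin

set_option autoImplicit false

/-! Half-plane inequality for `ζ^P - W`. -/

namespace Pool.Agent.KS6_29

open MeasureTheory Set Complex Pool.Agent.H306R2 Pool.Agent.W184

lemma nrm_swap2 (a b z : ℂ) (P : ℕ) : ‖a ^ P * b / z ^ P‖ = ‖b‖ * ‖a / z‖ ^ P := by
  rw [mul_comm, mul_div_assoc, norm_mul, ← div_pow, norm_pow]

theorem half_gen {W : ℂ → ℂ} {N C1 C2 p Δ t : ℝ} {M P : ℕ} (hp : 0 < p) (hN : 1 ≤ N)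
    (hPM : P ≤ M)
    (hQd : Differentiable ℂ W) (hQ1 : ∀ z : ℂ, 1 / 2 ≤ z.re → z.re ≤ 2 → ‖W z‖ ≤ C1)
    (hQ2 : ∀ z : ℂ, 2 ≤ z.re → ‖riemannZeta z ^ P - W z‖ * N ^ z.re ≤ C2)
    (h0 : 0 < Δ) (h1 : Δ ≤ 1 / 8) :
    ((1 - 8 * Δ) ^ P * N ^ Δ / (1 + Δ) ^ (2 * M)) ^ p *
      ‖riemannZeta (((1 / 2 + Δ : ℝ) : ℂ) + t * I) ^ P - W (((1 / 2 + Δ : ℝ) : ℂ) + t * I)‖ ^ p ≤
    ∫ w : ℝ, (KP Δ w * (1 + w ^ 2) ^ (-(M * p))) *
      ‖riemannZeta (((1 / 2 : ℝ) : ℂ) + (t + w : ℝ) * I) ^ P - W (((1 / 2 : ℝ) : ℂ) + (t + w : ℝ) * I)‖ ^ p := by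
  have hN0 : 0 < N := by linarith
  have hNc : (N : ℂ) ≠ 0 := by exact_mod_cast hN0.ne'
  set c : ℂ := ((1 / 2 : ℝ) : ℂ) + t * I with hc
  have hcre : c.re = 1 / 2 := by simp [hc]
  have hcim : c.im = t := by simp [hc]
  set F : ℂ → ℂ := fun z => (Zt z ^ P - (z - 1) ^ P * W z) / z ^ P * (N : ℂ) ^ (z - (1 / 2 : ℝ)) *
    (1 / (1 + z - c)) ^ (2 * M) with hF
  have hne : ∀ z : ℂ, 0 < z.re → z ≠ 0 := by
    rintro z hz rfl; simp at hz
  have hne2 : ∀ z : ℂ, 0 < z.re → 1 + z - c ≠ 0 := by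
    intro z hz h
    have := congrArg Complex.re h
    simp [hcre] at this
    linarith
  have hFd : ∀ z : ℂ, 0 < z.re → DifferentiableAt ℂ F z := by
    intro z hz
    have q1 : DifferentiableAt ℂ (fun z => Zt z ^ P - (z - 1) ^ P * W z) z := by
      refine DifferentiableAt.sub ?_ (by fun_prop)
      exact DifferentiableAt.pow (Zt_differentiableAt hz) P
    have q2 : DifferentiableAt ℂ (fun z : ℂ => z ^ P) z := by fun_prop
    refine ((q1.div q2 (pow_ne_zero P (hne z hz))).mul ?_).mul ?_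
    · exact DifferentiableAt.const_cpow (by fun_prop) (Or.inl hNc)
    · refine DifferentiableAt.pow ?_ _
      exact (differentiableAt_const _).div (by fun_prop) (hne2 z hz)
  have hg1 : ∀ z : ℂ, 1 / 2 ≤ z.re → 1 ≤ ‖1 + z - c‖ := by
    intro z hz
    have := Complex.re_le_norm (1 + z - c)
    simp only [Complex.add_re, Complex.sub_re, Complex.one_re, hcre] at this
    linarith
  have hFn : ∀ z : ℂ, ‖F z‖ = ‖(Zt z ^ P - (z - 1) ^ P * W z) / z ^ P‖ * N ^ (z.re - 1 / 2) *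
      (1 / ‖1 + z - c‖) ^ (2 * M) := by
    intro z
    rw [hF]
    simp only
    rw [norm_mul, norm_mul, Complex.norm_cpow_eq_rpow_re_of_pos hN0, norm_pow, norm_div (1:ℂ), norm_one]
    congr 2
  have hZt : ∀ z : ℂ, 0 < z.re → z ≠ 1 →
      Zt z ^ P - (z - 1) ^ P * W z = (z - 1) ^ P * (riemannZeta z ^ P - W z) := by
    intro z hz h1
    rw [← zeta_eq_pos hz h1, mul_pow]; ring
  have hC1 : 0 ≤ C1 := (norm_nonneg _).trans (hQ1 1 (by norm_num) (by norm_num))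
  have hC2 : 0 ≤ C2 := (mul_nonneg (norm_nonneg _) (by positivity)).trans (hQ2 2 (by norm_num))
  set B : ℝ := 2 ^ P * (3 ^ P + C1) * (2 + ‖c - 1‖) ^ (2 * P) * N ^ 2 + C2 with hB
  have hb : ∀ z : ℂ, 1 / 2 ≤ z.re → ‖F z‖ ≤ B := by
    intro z hz
    have hz0 : 0 < z.re := by linarith
    have hgz := hg1 z hz
    have hgz0 : 0 < ‖1 + z - c‖ := by linarith
    have hpw : (1 / ‖1 + z - c‖) ^ (2 * M) ≤ (1 / ‖1 + z - c‖) ^ (2 * P) := by
      refine pow_le_pow_of_le_one (by positivity) ?_ (by omega)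
      rw [div_le_one hgz0]; exact hgz
    have hzn : 1 / 2 ≤ ‖z‖ := hz.trans (Complex.re_le_norm z)
    rw [hFn]
    rcases le_total z.re 2 with h2 | h2
    · have b1 : ‖(Zt z ^ P - (z - 1) ^ P * W z) / z ^ P‖ ≤ 2 ^ P * (3 ^ P + C1) * (‖z‖ + 1) ^ (2 * P) := by
        rw [norm_div, norm_pow, div_le_iff₀ (by positivity)]
        have a1 : ‖Zt z ^ P‖ ≤ 3 ^ P * (‖z‖ + 1) ^ (2 * P) := by
          rw [norm_pow, pow_mul, ← mul_pow]
          exact pow_le_pow_left₀ (norm_nonneg _) (Zt_norm_le hz) P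
        have a2 : ‖(z - 1) ^ P * W z‖ ≤ (‖z‖ + 1) ^ P * C1 := by
          rw [norm_mul, norm_pow]
          have := norm_sub_le z 1
          rw [norm_one] at this
          exact mul_le_mul (pow_le_pow_left₀ (norm_nonneg _) this P) (hQ1 z hz h2) (norm_nonneg _) (by positivity)
        have a3 := norm_sub_le (Zt z ^ P) ((z - 1) ^ P * W z)
        have a4 : (‖z‖ + 1) ^ P * C1 ≤ (‖z‖ + 1) ^ (2 * P) * C1 := by
          have : (‖z‖ + 1) ^ P ≤ (‖z‖ + 1) ^ (2 * P) :=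
            pow_le_pow_right₀ (by linarith [norm_nonneg z]) (by omega)
          exact mul_le_mul_of_nonneg_right this hC1
        have a6 : 1 ≤ 2 ^ P * ‖z‖ ^ P := by
          rw [← mul_pow]
          exact one_le_pow₀ (by linarith)
        have a5 : (3 ^ P + C1) * (‖z‖ + 1) ^ (2 * P) * 1 ≤ (3 ^ P + C1) * (‖z‖ + 1) ^ (2 * P) * (2 ^ P * ‖z‖ ^ P) :=
          mul_le_mul_of_nonneg_left a6 (by positivity)
        nlinarith
      have b2 : N ^ (z.re - 1 / 2) ≤ N ^ 2 := by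
        rw [← Real.rpow_natCast]
        refine Real.rpow_le_rpow_of_exponent_le hN ?_
        push_cast; linarith
      have b3 : ‖z‖ + 1 ≤ ‖1 + z - c‖ * (2 + ‖c - 1‖) := by
        have a1 : ‖z‖ ≤ ‖1 + z - c‖ + ‖c - 1‖ := by
          have := norm_add_le (1 + z - c) (c - 1)
          rwa [show 1 + z - c + (c - 1) = z by ring] at this
        nlinarith [norm_nonneg (c - 1)]
      have b4 : (‖z‖ + 1) ^ (2 * P) * (1 / ‖1 + z - c‖) ^ (2 * P) ≤ (2 + ‖c - 1‖) ^ (2 * P) := by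
        rw [← mul_pow]
        refine pow_le_pow_left₀ (by positivity) ?_ (2 * P)
        rw [mul_one_div, div_le_iff₀ hgz0]
        linarith
      calc ‖(Zt z ^ P - (z - 1) ^ P * W z) / z ^ P‖ * N ^ (z.re - 1 / 2) * (1 / ‖1 + z - c‖) ^ (2 * M) ≤
          (2 ^ P * (3 ^ P + C1) * (‖z‖ + 1) ^ (2 * P)) * N ^ 2 * (1 / ‖1 + z - c‖) ^ (2 * P) := by gcongr
        _ = 2 ^ P * (3 ^ P + C1) * ((‖z‖ + 1) ^ (2 * P) * (1 / ‖1 + z - c‖) ^ (2 * P)) * N ^ 2 := by ring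
        _ ≤ 2 ^ P * (3 ^ P + C1) * (2 + ‖c - 1‖) ^ (2 * P) * N ^ 2 := by gcongr
        _ ≤ B := by linarith
    · have hz1 : z ≠ 1 := by
        rintro rfl; norm_num at h2
      rw [hZt z hz0 hz1, nrm_swap2]
      have b1 : ‖(z - 1) / z‖ ^ P ≤ 1 := by
        refine pow_le_one₀ (norm_nonneg _) ?_
        rw [norm_div, div_le_one (by linarith)]
        have e1 : ‖z - 1‖ ^ 2 ≤ ‖z‖ ^ 2 := by
          rw [Complex.sq_norm, Complex.sq_norm, Complex.normSq_apply, Complex.normSq_apply]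
          simp
          nlinarith
        exact (abs_le_of_sq_le_sq' e1 (norm_nonneg _)).2
      have b2 : N ^ (z.re - 1 / 2) ≤ N ^ z.re := Real.rpow_le_rpow_of_exponent_le hN (by linarith)
      have b3 : (1 / ‖1 + z - c‖) ^ (2 * M) ≤ 1 := by
        refine pow_le_one₀ (by positivity) ?_
        rw [div_le_one hgz0]; exact hgz
      calc ‖riemannZeta z ^ P - W z‖ * ‖(z - 1) / z‖ ^ P * N ^ (z.re - 1 / 2) * (1 / ‖1 + z - c‖) ^ (2 * M) ≤
          ‖riemannZeta z ^ P - W z‖ * 1 * N ^ z.re * 1 := by gcongr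
        _ = ‖riemannZeta z ^ P - W z‖ * N ^ z.re := by ring
        _ ≤ C2 := hQ2 z h2
        _ ≤ B := by
          have : 0 ≤ 2 ^ P * (3 ^ P + C1) * (2 + ‖c - 1‖) ^ (2 * P) * N ^ 2 := by positivity
          linarith
  have hmain := hp_ineq (F := F) (b := 1 / 2) (t := t) (C := B) h0 hp ?_ ?_ ?_
  · have e1 : (((1 / 2 : ℝ) : ℂ) + Δ + t * I) = (((1 / 2 + Δ : ℝ) : ℂ) + t * I) := by push_cast; ring
    have hz1 : (((1 / 2 : ℝ) : ℂ) + Δ + t * I) ≠ 1 := by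
      intro h
      have := congrArg Complex.re h
      simp at this
      linarith
    have hre : (((1 / 2 : ℝ) : ℂ) + Δ + t * I).re = 1 / 2 + Δ := by simp
    have h8 : 0 ≤ 1 - 8 * Δ := by linarith
    have hlow : ((1 - 8 * Δ) ^ P * N ^ Δ / (1 + Δ) ^ (2 * M)) *
        ‖riemannZeta (((1 / 2 + Δ : ℝ) : ℂ) + t * I) ^ P - W (((1 / 2 + Δ : ℝ) : ℂ) + t * I)‖ ≤
        ‖F (((1 / 2 : ℝ) : ℂ) + Δ + t * I)‖ := by
      rw [hFn, hZt _ (by rw [hre]; linarith) hz1, nrm_swap2, hre, ← e1]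
      have h3 := pow_le_pow_left₀ h8 (norm_ratio_ge (t := t) h0.le (by linarith : 8 * Δ ≤ 1)) P
      have e2 : ‖1 + (((1 / 2 : ℝ) : ℂ) + Δ + t * I) - c‖ = 1 + Δ := by
        rw [hc, show 1 + (((1 / 2 : ℝ) : ℂ) + Δ + t * I) - (((1 / 2 : ℝ) : ℂ) + t * I) =
          ((1 + Δ : ℝ) : ℂ) by push_cast; ring, Complex.norm_real, Real.norm_of_nonneg (by linarith)]
      rw [e2, show (1 / 2 + Δ - 1 / 2) = Δ by ring, one_div (1 + Δ), inv_pow]
      have hX := norm_nonneg (riemannZeta (((1 / 2 : ℝ) : ℂ) + Δ + t * I) ^ P -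
        W (((1 / 2 : ℝ) : ℂ) + Δ + t * I))
      have hY : 0 ≤ N ^ Δ * ((1 + Δ) ^ (2 * M))⁻¹ := by positivity
      calc ((1 - 8 * Δ) ^ P * N ^ Δ / (1 + Δ) ^ (2 * M)) * ‖riemannZeta (((1 / 2 : ℝ) : ℂ) + Δ + t * I) ^ P -
            W (((1 / 2 : ℝ) : ℂ) + Δ + t * I)‖ = (1 - 8 * Δ) ^ P * (‖riemannZeta (((1 / 2 : ℝ) : ℂ) + Δ + t * I) ^ P -
            W (((1 / 2 : ℝ) : ℂ) + Δ + t * I)‖ * (N ^ Δ * ((1 + Δ) ^ (2 * M))⁻¹)) := by
              rw [div_eq_mul_inv]; ring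
        _ ≤ ‖(((1 / 2 : ℝ) : ℂ) + Δ + t * I - 1) / (((1 / 2 : ℝ) : ℂ) + Δ + t * I)‖ ^ P *
            (‖riemannZeta (((1 / 2 : ℝ) : ℂ) + Δ + t * I) ^ P -
            W (((1 / 2 : ℝ) : ℂ) + Δ + t * I)‖ * (N ^ Δ * ((1 + Δ) ^ (2 * M))⁻¹)) :=
              mul_le_mul_of_nonneg_right h3 (mul_nonneg hX hY)
        _ = _ := by ring
    have hlow2 : 0 ≤ (1 - 8 * Δ) ^ P * N ^ Δ / (1 + Δ) ^ (2 * M) := by positivity
    rw [← Real.mul_rpow hlow2 (norm_nonneg _)]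
    refine (Real.rpow_le_rpow (mul_nonneg hlow2 (norm_nonneg _)) hlow hp.le).trans ?_
    refine hmain.trans (le_of_eq ?_)
    refine integral_congr_ae (Filter.Eventually.of_forall fun w => ?_)
    simp only
    have r1 : (((1 / 2 : ℝ) : ℂ) + ((t + w : ℝ) : ℂ) * I).re = 1 / 2 := by simp
    have hz2 : (((1 / 2 : ℝ) : ℂ) + ((t + w : ℝ) : ℂ) * I) ≠ 1 := by
      intro h
      have := congrArg Complex.re h
      rw [r1] at this
      norm_num at this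
    rw [hFn, hZt _ (by rw [r1]; norm_num) hz2, nrm_swap2, r1,
      norm_ratio_half, sub_self, Real.rpow_zero, mul_one, one_pow, mul_one]
    have e3 : ‖1 + (((1 / 2 : ℝ) : ℂ) + ((t + w : ℝ) : ℂ) * I) - c‖ ^ 2 = 1 + w ^ 2 := by
      rw [hc, show 1 + (((1 / 2 : ℝ) : ℂ) + ((t + w : ℝ) : ℂ) * I) - (((1 / 2 : ℝ) : ℂ) + t * I) =
        1 + (w : ℂ) * I by push_cast; ring, Complex.sq_norm, Complex.normSq_apply]
      simp
      ring
    have h4 : 0 < 1 + w ^ 2 := by positivity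
    have e5 : (1 / ‖1 + (((1 / 2 : ℝ) : ℂ) + ((t + w : ℝ) : ℂ) * I) - c‖) ^ 2 = (1 + w ^ 2)⁻¹ := by
      rw [div_pow, one_pow, e3, one_div]
    rw [pow_mul, e5, Real.mul_rpow (norm_nonneg _) (by positivity)]
    have e4 : (((1 + w ^ 2)⁻¹) ^ M : ℝ) ^ p = (1 + w ^ 2) ^ (-(M * p)) := by
      rw [← Real.rpow_natCast, Real.inv_rpow h4.le, ← Real.rpow_neg h4.le, ← Real.rpow_mul h4.le]
      congr 1; ring
    rw [e4]
    ring
  · intro z hz
    have hz' : (1:ℝ) / 2 < z.re := hz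
    exact (hFd z (by linarith)).differentiableWithinAt
  · intro z hz
    have hz' : (1:ℝ) / 2 ≤ z.re := hz
    exact (hFd z (by linarith)).continuousAt.continuousWithinAt
  · intro z hz
    exact hb z hz.le

end Pool.Agent.KS6_29
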