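import Pool.Agent.KS6_29.Win

set_option autoImplicit false

/-! The bound for the difference to the right of the critical line. -/

namespace Pool.Agent.KS6_29

open MeasureTheory Finset Filter Topology Pool.Agent.H306R2 Pool.Agent.W184
open Pool.Agent.Y755 (DD g2 DD_low DD_asym DD_ge_one g2_summable g2_nonneg wδ)

/-- the length of the Dirichlet polynomial -/
noncomputable def NN (η X : ℝ) : ℕ := ⌊X ^ (1 - η)⌋₊

lemma NN_ev {η : ℝ} (_h0 : 0 < η) (h1 : η < 1) : ∀ᶠ X : ℝ in atTop, 3 ≤ NN η X ∧ X ^ (1 - η) / 2 ≤ NN η X ∧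
    (NN η X : ℝ) ≤ X ^ (1 - η) ∧ 1 ≤ X ∧ Real.log (NN η X) ≤ Real.log X := by
  have h2 : Tendsto (fun X : ℝ => X ^ (1 - η)) atTop atTop := tendsto_rpow_atTop (by linarith)
  filter_upwards [h2.eventually_ge_atTop 3, eventually_ge_atTop 1] with X g1 g2
  have hX0 : 0 < X := by linarith
  have a1 : 3 ≤ NN η X := by
    unfold NN
    exact Nat.le_floor (by exact_mod_cast g1)
  have a2 : X ^ (1 - η) / 2 ≤ NN η X := by
    have := Nat.lt_floor_add_one (X ^ (1 - η))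
    unfold NN
    linarith
  have a3 : (NN η X : ℝ) ≤ X ^ (1 - η) := Nat.floor_le (by positivity)
  refine ⟨a1, a2, a3, g2, ?_⟩
  refine Real.log_le_log (by exact_mod_cast (by omega : 0 < NN η X)) (a3.trans ?_)
  calc X ^ (1 - η) ≤ X ^ (1:ℝ) := Real.rpow_le_rpow_of_exponent_le g2 (by linarith)
    _ = X := Real.rpow_one X

/-- the factor -/
lemma fac_low {P q : ℕ} (hq : 2 ≤ q) {η X δ : ℝ} (hX : 1 ≤ X) (_hη : η < 1) (h2 : X ^ (1 - η) / 2 ≤ NN η X)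
    (hδ : 0 < δ) (hδ1 : δ ≤ 1 / 16) :
    ((1 / 2) ^ P / 2 / 2 ^ (2 * (8 * q))) ^ (2 / (q:ℝ)) * X ^ ((1 - η) * (2 / (q:ℝ)) * δ) ≤
      ((1 - 8 * δ) ^ P * (NN η X : ℝ) ^ δ / (1 + δ) ^ (2 * (8 * q))) ^ (2 / (q:ℝ)) := by
  obtain ⟨h3, h4⟩ := two_div_q hq
  have hX0 : 0 < X := by linarith
  have e1 : X ^ ((1 - η) * (2 / (q:ℝ)) * δ) = (X ^ ((1 - η) * δ)) ^ (2 / (q:ℝ)) := by
    rw [← Real.rpow_mul hX0.le]; congr 1; ring
  rw [e1, ← Real.mul_rpow (by positivity) (by positivity)]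
  refine Real.rpow_le_rpow (by positivity) ?_ h3.le
  have a1 : ((1:ℝ) / 2) ^ P ≤ (1 - 8 * δ) ^ P := pow_le_pow_left₀ (by norm_num) (by linarith) P
  have a2 : X ^ ((1 - η) * δ) / 2 ≤ (NN η X : ℝ) ^ δ := by
    calc X ^ ((1 - η) * δ) / 2 ≤ X ^ ((1 - η) * δ) / 2 ^ δ := by
          have : (2:ℝ) ^ δ ≤ 2 ^ (1:ℝ) := Real.rpow_le_rpow_of_exponent_le (by norm_num) (by linarith)
          rw [Real.rpow_one] at this
          gcongr
      _ = (X ^ (1 - η) / 2) ^ δ := by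
          rw [Real.div_rpow (by positivity) (by norm_num), ← Real.rpow_mul hX0.le]
      _ ≤ _ := Real.rpow_le_rpow (by positivity) h2 hδ.le
  have a3 : (1 + δ) ^ (2 * (8 * q)) ≤ 2 ^ (2 * (8 * q)) := pow_le_pow_left₀ (by linarith) (by linarith) _
  have a4 : 0 ≤ 1 - 8 * δ := by linarith
  calc (1 / 2) ^ P / 2 / 2 ^ (2 * (8 * q)) * X ^ ((1 - η) * δ) =
      (1 / 2) ^ P * (X ^ ((1 - η) * δ) / 2) / 2 ^ (2 * (8 * q)) := by ring
    _ ≤ _ := by gcongr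

lemma int_sym {f : ℝ → ℝ} (hf : Continuous f) (h0 : ∀ x, 0 ≤ f x) (hs : ∀ x, f (-x) = f x) {X : ℝ} (hX : 0 ≤ X) :
    ∫ t in (-X)..(X + X), f t ≤ 2 * ∫ t in (0:ℝ)..(2 * X), f t := by
  have hi : ∀ a b : ℝ, IntervalIntegrable f volume a b := fun a b => hf.intervalIntegrable _ _
  have e1 := intervalIntegral.integral_add_adjacent_intervals (hi (-X) 0) (hi 0 (X + X))
  have e2 : ∫ t in (-X)..0, f t = ∫ t in (0:ℝ)..X, f t := by
    have := intervalIntegral.integral_comp_neg (a := 0) (b := X) f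
    simp only [neg_zero] at this
    rw [← this]
    exact intervalIntegral.integral_congr fun t _ => hs t
  have e3 : ∫ t in (0:ℝ)..X, f t ≤ ∫ t in (0:ℝ)..(2 * X), f t := by
    refine intervalIntegral.integral_mono_interval le_rfl hX (by linarith)
      (Filter.Eventually.of_forall fun x => h0 x) (hi _ _)
  rw [← e1, e2, ← two_mul]
  linarith

theorem J_bound {P q : ℕ} (hq : 2 ≤ q) (hP1 : 1 ≤ P) (hP : P ≤ 2 * q) {η : ℝ} (hη0 : 0 < η) (hη1 : η < 1) :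
    ∃ C : ℝ, 0 < C ∧ ∀ᶠ X : ℝ in atTop, ∀ δ : ℝ, 1 / (2 * Real.log X) ≤ δ → δ ≤ 1 / 16 →
      ∫ t in (0:ℝ)..X, qP P (WK P q (NN η X)) (2 / (q:ℝ)) (1 / 2 + δ) t ≤
        C * X ^ (-((1 - η) * (2 / (q:ℝ)) * δ)) * (X * Real.log X ^ (((P:ℝ) / q) ^ 2)) := by
  obtain ⟨k1, k2⟩ := kap hq hP1 hP
  set κ : ℝ := (P:ℝ) / q with hκ
  obtain ⟨h3, h4⟩ := two_div_q hq
  have hq0 : (0:ℝ) < q := by exact_mod_cast (by omega : 0 < q)
  obtain ⟨C1, hC1, hon⟩ := online k1 k2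
  obtain ⟨C2, hC2, hSd⟩ := Sd_zero_le k1
  set c0 : ℝ := ((1 / 2) ^ P / 2 / 2 ^ (2 * (8 * q))) ^ (2 / (q:ℝ)) with hc0
  have hc0p : 0 < c0 := by positivity
  set R : ℝ := 2 * (C1 * 2 * 2 ^ (κ ^ 2)) + 7 * C2 + 1 with hR
  have hRp : 0 < R := by positivity
  refine ⟨R / c0, by positivity, ?_⟩
  have h2T : Tendsto (fun X : ℝ => 2 * X) atTop atTop := tendsto_id.const_mul_atTop (by norm_num)
  have hsm := small_pow (-η) 1 (2:ℝ) (by linarith)
  filter_upwards [NN_ev hη0 hη1, h2T.eventually hon, hsm, eventually_ge_atTop 1000,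
    Real.tendsto_log_atTop.eventually_ge_atTop 1] with X g1 g2 g3 g4 g5 δ hδ1 hδ2
  obtain ⟨n1, n2, n3, n4, n5⟩ := g1
  set N : ℕ := NN η X with hN
  have hX0 : 0 < X := by linarith
  have hL0 : 0 < Real.log X := by linarith
  have hδ : 0 < δ := lt_of_lt_of_le (by positivity) hδ1
  have hN1 : 1 ≤ N := by omega
  have hNr : (1:ℝ) ≤ N := by exact_mod_cast hN1
  have hNX : (N:ℝ) ≤ X := by
    refine n3.trans ?_
    calc X ^ (1 - η) ≤ X ^ (1:ℝ) := Real.rpow_le_rpow_of_exponent_le n4 (by linarith)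
      _ = X := Real.rpow_one X
  obtain ⟨C3, hC3⟩ := zeta_pow_sub_le P (q := q) (N := N) (by omega) hN1
  have hMp : ((8 * q : ℕ) : ℝ) * (2 / (q:ℝ)) = 16 := by push_cast; field_simp; norm_num
  have hmain := half_avg (W := WK P q N) (N := (N:ℝ)) (C1 := ((N:ℝ) ^ 3) ^ q) (C2 := C3) (p := 2 / (q:ℝ)) (Δ := δ)
    (T := X) (B := 4 * 12 ^ 4 + (N:ℝ) ^ 6) (M := 8 * q) (P := P) h3 hNr (by omega) hMp (WK_diff P q N)
    (fun z hz _ => by
      unfold WK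
      rw [norm_pow]
      exact pow_le_pow_left₀ (norm_nonneg _) (DK_le (by omega) hP (by linarith)) q)
    hC3 hδ (by linarith) n4 (by positivity) (qP_growth hq hP1 hP hN1)
  set J := ∫ t in (0:ℝ)..X, qP P (WK P q N) (2 / (q:ℝ)) (1 / 2 + δ) t with hJ
  have hJ0 : 0 ≤ J := intervalIntegral.integral_nonneg hX0.le fun x _ => qP_nonneg _ _ _ _ _
  have hfac := fac_low (P := P) hq n4 hη1 n2 hδ hδ2
  have hLk : 1 ≤ Real.log X ^ (κ ^ 2) := Real.one_le_rpow g5 (sq_nonneg _)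
  set G : ℝ := X * Real.log X ^ (κ ^ 2) with hG
  have hXG : X ≤ G := le_mul_of_one_le_right hX0.le hLk
  -- the edge
  have b1 : ∫ t in (-X)..(X + X), qP P (WK P q N) (2 / (q:ℝ)) (1 / 2) t ≤
      (∫ t in (-X)..(X + X), zn (1 / 2) t ^ (2 * κ)) + ∫ t in (-X)..(X + X), dk P q N (1 / 2) t :=
    int_add_le' (qP_cont (WK_diff P q N) h3 (by norm_num)) (znp_cont' (by norm_num) (by positivity))
      (dk_cont P q N _) (by linarith) fun t => qP_le P N hq _ _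
  have b2 : ∫ t in (-X)..(X + X), zn (1 / 2) t ^ (2 * κ) ≤ 2 * (C1 * 2 * 2 ^ (κ ^ 2)) * G := by
    have c1 := int_sym (f := fun t => zn (1 / 2) t ^ (2 * κ)) (znp_cont' (by norm_num) (by positivity))
      (fun x => Real.rpow_nonneg (zn_nonneg _ _) _) (fun x => by simp only [zn_neg]) hX0.le
    have c2 : Real.log (2 * X) ^ (κ ^ 2) ≤ 2 ^ (κ ^ 2) * Real.log X ^ (κ ^ 2) := by
      rw [← Real.mul_rpow (by norm_num) hL0.le]
      refine Real.rpow_le_rpow (Real.log_nonneg (by linarith)) ?_ (sq_nonneg _)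
      rw [Real.log_mul (by norm_num) hX0.ne']
      have := Real.log_two_lt_d9
      linarith
    have c3 : C1 * (2 * X * Real.log (2 * X) ^ (κ ^ 2)) ≤ C1 * (2 * X * (2 ^ (κ ^ 2) * Real.log X ^ (κ ^ 2))) := by
      gcongr
    calc ∫ t in (-X)..(X + X), zn (1 / 2) t ^ (2 * κ) ≤ 2 * (C1 * (2 * X * (2 ^ (κ ^ 2) * Real.log X ^ (κ ^ 2)))) := by
          linarith
      _ = _ := by rw [hG]; ring
  have b3 : ∫ t in (-X)..(X + X), dk P q N (1 / 2) t ≤ 7 * C2 * G := by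
    have c1 := (abs_le.mp (dk_mv P q N 0 (-X) (X + X))).2
    rw [add_zero] at c1
    have c2 := hSd N n1
    have c3 : Real.log N ^ (κ ^ 2) ≤ Real.log X ^ (κ ^ 2) :=
      Real.rpow_le_rpow (Real.log_nonneg hNr) n5 (sq_nonneg _)
    have c4 : (N:ℝ) * (1 + Real.log N) ≤ X := by
      calc (N:ℝ) * (1 + Real.log N) ≤ X ^ (1 - η) * (2 * Real.log X) := by
            refine mul_le_mul n3 (by linarith) (by linarith [Real.log_nonneg hNr]) (by positivity)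
        _ = (2 * (X ^ (-η) * Real.log X ^ (1:ℝ))) * X := by
            rw [Real.rpow_one, sub_eq_add_neg, Real.rpow_add hX0, Real.rpow_one]; ring
        _ ≤ 1 * X := mul_le_mul_of_nonneg_right g3 hX0.le
        _ = X := one_mul X
    have c5 := Sd_nonneg κ 0 N
    have c6 : Sd κ 0 N ≤ C2 * Real.log X ^ (κ ^ 2) := c2.trans (by gcongr)
    have c7 : (X + X - -X) * Sd κ 0 N + 4 * (N * (1 + Real.log N)) * Sd κ 0 N ≤ 7 * X * Sd κ 0 N := by
      nlinarith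
    calc ∫ t in (-X)..(X + X), dk P q N (1 / 2) t ≤ 7 * X * Sd κ 0 N := by linarith
      _ ≤ 7 * X * (C2 * Real.log X ^ (κ ^ 2)) := by gcongr
      _ = _ := by rw [hG]; ring
  have b4 : X * (4 * (4 * 12 ^ 4 + (N:ℝ) ^ 6) * (1 + X ^ 2) ^ 2) * (Real.pi * (1 / δ) * (X ^ 26)⁻¹) ≤ X := by
    have c1 : 1 / δ ≤ 2 * X := by
      rw [div_le_iff₀ hδ]
      rw [div_le_iff₀ (by positivity)] at hδ1
      have := Real.log_le_sub_one_of_pos hX0
      nlinarith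
    have c2 : (N:ℝ) ^ 6 ≤ X ^ 6 := pow_le_pow_left₀ (by positivity) hNX 6
    have c3 : (4 * 12 ^ 4 : ℝ) ≤ X ^ 6 := by
      calc (4 * 12 ^ 4 : ℝ) ≤ 1000 ^ 6 := by norm_num
        _ ≤ X ^ 6 := pow_le_pow_left₀ (by norm_num) g4 6
    have c4 : (1 + X ^ 2) ^ 2 ≤ (2 * X ^ 2) ^ 2 := by
      refine pow_le_pow_left₀ (by positivity) ?_ 2
      nlinarith
    have c5 := Real.pi_le_four
    calc X * (4 * (4 * 12 ^ 4 + (N:ℝ) ^ 6) * (1 + X ^ 2) ^ 2) * (Real.pi * (1 / δ) * (X ^ 26)⁻¹) ≤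
        X * (4 * (X ^ 6 + X ^ 6) * (2 * X ^ 2) ^ 2) * (4 * (2 * X) * (X ^ 26)⁻¹) := by gcongr
      _ = X * (256 * (X ^ 15)⁻¹) := by field_simp; ring
      _ ≤ X * 1 := by
          refine mul_le_mul_of_nonneg_left ?_ hX0.le
          rw [← div_eq_mul_inv, div_le_one (by positivity)]
          calc (256:ℝ) ≤ 1000 ^ 15 := by norm_num
            _ ≤ X ^ 15 := pow_le_pow_left₀ (by norm_num) g4 15
      _ = X := mul_one X
  have b5 : ((1 - 8 * δ) ^ P * (N:ℝ) ^ δ / (1 + δ) ^ (2 * (8 * q))) ^ (2 / (q:ℝ)) * J ≤ R * G := by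
    refine hmain.trans ?_
    calc _ ≤ (2 * (C1 * 2 * 2 ^ (κ ^ 2)) * G + 7 * C2 * G) + G := add_le_add (b1.trans (add_le_add b2 b3)) (b4.trans hXG)
      _ = R * G := by rw [hR]; ring
  have b6 : c0 * X ^ ((1 - η) * (2 / (q:ℝ)) * δ) * J ≤ R * G := (mul_le_mul_of_nonneg_right hfac hJ0).trans b5
  have hXp : 0 < X ^ ((1 - η) * (2 / (q:ℝ)) * δ) := Real.rpow_pos_of_pos hX0 _
  rw [Real.rpow_neg hX0.le]
  rw [div_mul_eq_mul_div, div_mul_eq_mul_div, le_div_iff₀ hc0p]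
  have : J * c0 * X ^ ((1 - η) * (2 / (q:ℝ)) * δ) ≤ R * G := by linarith
  rw [← le_div_iff₀ hXp] at this
  refine this.trans (le_of_eq ?_)
  field_simp

end Pool.Agent.KS6_29
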