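import Pool.Agent.KS6_29.Jb

set_option autoImplicit false

/-! The moments of rational order with an exponential rate. -/

namespace Pool.Agent.KS6_29

open MeasureTheory Finset Filter Topology Pool.Agent.H306R2 Pool.Agent.W184
open Pool.Agent.Y755 (DD g2 DD_low DD_asym DD_ge_one g2_summable g2_nonneg wδ mom mom_eq Dser Dser_eq small_x)

theorem base {P q : ℕ} (hq : 2 ≤ q) (hP1 : 1 ≤ P) (hP : P ≤ 2 * q) {c r : ℝ} (hc : 0 < c) (hr : 0 < r)
    (hr1 : r ≤ 1 / 16) (hcr : c * (q + 2 * r) < 2) :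
    ∃ C : ℝ, 0 < C ∧ ∀ᶠ X : ℝ in atTop, ∀ δ : ℝ, 1 / (2 * Real.log X) ≤ δ → δ ≤ r →
      |(∫ t in (0:ℝ)..X, zn (1 / 2 + δ) t ^ (2 * ((P:ℝ) / q))) - X * DD ((P:ℝ) / q) δ| ≤
        C * X ^ (-(c * δ)) * (X * DD ((P:ℝ) / q) δ) := by
  obtain ⟨k1, k2⟩ := kap hq hP1 hP
  obtain ⟨h3, h4⟩ := two_div_q hq
  have hq0 : (0:ℝ) < q := by exact_mod_cast (by omega : 0 < q)
  have hq2 : (2:ℝ) ≤ q := by exact_mod_cast hq
  set κ : ℝ := (P:ℝ) / q with hκ
  -- the choice of η
  obtain ⟨η, hη1, hη2⟩ : ∃ η : ℝ, c * r < η ∧ η < 1 - c * q / 2 := exists_between (by linarith)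
  have hη0 : 0 < η := lt_trans (by positivity) hη1
  have hcq : 0 < c * q / 2 := by positivity
  have hη3 : η < 1 := by linarith
  set a : ℝ := (1 - η) * (2 / (q:ℝ)) - c with ha
  have ha0 : 0 < a := by
    rw [ha, sub_pos]
    have : c * q / 2 < 1 - η := by linarith
    calc c = c * q / 2 * (2 / q) := by field_simp
      _ < (1 - η) * (2 / q) := mul_lt_mul_of_pos_right this h3
  have hcη : c ≤ 1 - η := by nlinarith
  obtain ⟨C1, hC1, hJ⟩ := J_bound hq hP1 hP hη0 hη3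
  obtain ⟨C2, hC2, hDup⟩ := DD_up k1
  obtain ⟨c3, hc3, hDlow⟩ := DD_low k1
  have hs : 0 < κ ^ 2 := by positivity
  set C4 : ℝ := (κ ^ 2 / a) ^ (κ ^ 2) with hC4
  have hC4p : 0 < C4 := by positivity
  refine ⟨C1 * C4 / c3 + 1 + 2 * C2 * 2 ^ (κ ^ 2) / c3, by positivity, ?_⟩
  have hsm := small_pow (-(η - c * r)) 1 (8:ℝ) (by linarith)
  filter_upwards [NN_ev hη0 hη3, hJ, hsm, Real.tendsto_log_atTop.eventually_ge_atTop 1] with X g1 g2 g3 g5 δ hδ1 hδ2
  obtain ⟨n1, n2, n3, n4, n5⟩ := g1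
  set N : ℕ := NN η X with hN
  have hX0 : 0 < X := by linarith
  have hL0 : 0 < Real.log X := by linarith
  have hδ : 0 < δ := lt_of_lt_of_le (by positivity) hδ1
  have hδ16 : δ ≤ 1 / 16 := by linarith
  have hN1 : 1 ≤ N := by omega
  have hNr : (1:ℝ) ≤ N := by exact_mod_cast hN1
  have hN0 : (0:ℝ) < N := by linarith
  have hD1 := DD_ge_one k1 hδ
  have hDl := hDlow δ hδ (by linarith)
  set D := DD κ δ with hD
  have hD0 : 0 < D := by linarith
  set E := X ^ (-(c * δ)) with hE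
  have hE0 : 0 < E := Real.rpow_pos_of_pos hX0 _
  -- first piece
  have p1 : |(∫ t in (0:ℝ)..X, zn (1 / 2 + δ) t ^ (2 * κ)) - ∫ t in (0:ℝ)..X, dk P q N (1 / 2 + δ) t| ≤
      C1 * C4 / c3 * E * (X * D) := by
    have i1 := (znp_cont' (σ := 1 / 2 + δ) (b := 2 * κ) (by linarith) (by positivity)).intervalIntegrable
      (μ := volume) 0 X
    have i2 := (dk_cont P q N (1 / 2 + δ)).intervalIntegrable (μ := volume) 0 X
    rw [← intervalIntegral.integral_sub i1 i2]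
    have h5 : |∫ t in (0:ℝ)..X, (zn (1 / 2 + δ) t ^ (2 * κ) - dk P q N (1 / 2 + δ) t)| ≤
        ∫ t in (0:ℝ)..X, qP P (WK P q N) (2 / (q:ℝ)) (1 / 2 + δ) t := by
      refine (intervalIntegral.abs_integral_le_integral_abs hX0.le).trans ?_
      refine intervalIntegral.integral_mono_on hX0.le ?_ ?_ fun t _ => qP_diff P N hq _ _
      · exact ((znp_cont' (σ := 1 / 2 + δ) (b := 2 * κ) (by linarith) (by positivity)).sub
          (dk_cont P q N (1 / 2 + δ))).abs.intervalIntegrable _ _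
      · exact (qP_cont (WK_diff P q N) h3 (by linarith)).intervalIntegrable _ _
    refine h5.trans ((g2 δ hδ1 hδ16).trans ?_)
    have h6 : X ^ (-((1 - η) * (2 / (q:ℝ)) * δ)) = E * Real.exp (-(a * (δ * Real.log X))) := by
      rw [hE, Real.rpow_def_of_pos hX0, Real.rpow_def_of_pos hX0, ← Real.exp_add]
      congr 1; rw [ha]; ring
    have h7 : (δ * Real.log X) ^ (κ ^ 2) ≤ C4 * Real.exp (a * (δ * Real.log X)) :=
      pow_exp hs ha0 (by positivity)
    have h8 : Real.log X ^ (κ ^ 2) * Real.exp (-(a * (δ * Real.log X))) ≤ C4 / c3 * D := by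
      have h9 : Real.log X ^ (κ ^ 2) = (δ * Real.log X) ^ (κ ^ 2) * δ ^ (-(κ ^ 2)) := by
        rw [Real.mul_rpow hδ.le hL0.le, Real.rpow_neg hδ.le]
        have : 0 < δ ^ (κ ^ 2) := Real.rpow_pos_of_pos hδ _
        field_simp
      have h10 : Real.exp (a * (δ * Real.log X)) * Real.exp (-(a * (δ * Real.log X))) = 1 := by
        rw [← Real.exp_add]; simp
      have h11 : δ ^ (-(κ ^ 2)) ≤ D / c3 := by rw [le_div_iff₀ hc3]; linarith
      calc Real.log X ^ (κ ^ 2) * Real.exp (-(a * (δ * Real.log X))) =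
          (δ * Real.log X) ^ (κ ^ 2) * (δ ^ (-(κ ^ 2)) * Real.exp (-(a * (δ * Real.log X)))) := by rw [h9]; ring
        _ ≤ (C4 * Real.exp (a * (δ * Real.log X))) * (δ ^ (-(κ ^ 2)) * Real.exp (-(a * (δ * Real.log X)))) := by
            gcongr
        _ = C4 * δ ^ (-(κ ^ 2)) * (Real.exp (a * (δ * Real.log X)) * Real.exp (-(a * (δ * Real.log X)))) := by ring
        _ = C4 * δ ^ (-(κ ^ 2)) := by rw [h10, mul_one]
        _ ≤ C4 * (D / c3) := by gcongr
        _ = _ := by ring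
    rw [h6]
    calc C1 * (E * Real.exp (-(a * (δ * Real.log X)))) * (X * Real.log X ^ (κ ^ 2)) =
        C1 * E * X * (Real.log X ^ (κ ^ 2) * Real.exp (-(a * (δ * Real.log X)))) := by ring
      _ ≤ C1 * E * X * (C4 / c3 * D) := by gcongr
      _ = _ := by ring
  -- second piece
  have hSle : Sd κ δ N ≤ D := Sd_le k1 hδ N
  have p2 : |(∫ t in (0:ℝ)..X, dk P q N (1 / 2 + δ) t) - X * Sd κ δ N| ≤ 1 * E * (X * D) := by
    have h5 := dk_mv P q N δ 0 X
    rw [sub_zero] at h5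
    refine h5.trans ?_
    have h6 : 4 * ((N:ℝ) * (1 + Real.log N)) ≤ E * X := by
      have h7 : (N:ℝ) * (1 + Real.log N) ≤ X ^ (1 - η) * (2 * Real.log X) :=
        mul_le_mul n3 (by linarith) (by linarith [Real.log_nonneg hNr]) (by positivity)
      have h8 : X ^ (1 - η) = X ^ (-(η - c * r)) * (X ^ (-(c * r)) * X) := by
        nth_rewrite 4 [← Real.rpow_one X]
        rw [← Real.rpow_add hX0, ← Real.rpow_add hX0]; congr 1; ring
      have h9 : X ^ (-(c * r)) ≤ E := by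
        rw [hE]
        refine Real.rpow_le_rpow_of_exponent_le n4 ?_
        nlinarith
      have h10 : X ^ (-(η - c * r)) * (8 * Real.log X) ≤ 1 := by
        rw [Real.rpow_one] at g3; linarith
      calc 4 * ((N:ℝ) * (1 + Real.log N)) ≤ 4 * (X ^ (1 - η) * (2 * Real.log X)) := by linarith
        _ = (X ^ (-(η - c * r)) * (8 * Real.log X)) * (X ^ (-(c * r)) * X) := by rw [h8]; ring
        _ ≤ 1 * (X ^ (-(c * r)) * X) := mul_le_mul_of_nonneg_right h10 (by positivity)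
        _ ≤ 1 * (E * X) := by gcongr
        _ = E * X := one_mul _
    calc 4 * ((N:ℝ) * (1 + Real.log N)) * Sd κ δ N ≤ (E * X) * D :=
          mul_le_mul h6 hSle (Sd_nonneg _ _ _) (by positivity)
      _ = _ := by ring
  -- third piece
  have p3 : |X * Sd κ δ N - X * D| ≤ 2 * C2 * 2 ^ (κ ^ 2) / c3 * E * (X * D) := by
    rw [← mul_sub, abs_mul, abs_of_pos hX0, abs_sub_comm, abs_of_nonneg (by linarith)]
    have h5 := tail_le k1 hδ hN1
    have h6 := hDup (δ / 2) (by linarith) (by linarith)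
    have h7 : (δ / 2) ^ (-(κ ^ 2)) = 2 ^ (κ ^ 2) * δ ^ (-(κ ^ 2)) := by
      rw [Real.div_rpow hδ.le (by norm_num), Real.rpow_neg (by norm_num : (0:ℝ) ≤ 2), div_inv_eq_mul, mul_comm]
    have h8 : (N:ℝ) ^ (-δ) ≤ 2 * E := by
      have h9 : (X ^ (1 - η) / 2) ^ δ ≤ (N:ℝ) ^ δ := Real.rpow_le_rpow (by positivity) n2 hδ.le
      have h10 : E⁻¹ / 2 ≤ (X ^ (1 - η) / 2) ^ δ := by
        rw [Real.div_rpow (by positivity) (by norm_num), ← Real.rpow_mul hX0.le, hE, ← Real.rpow_neg hX0.le, neg_neg]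
        have h11 : (2:ℝ) ^ δ ≤ 2 := by
          calc (2:ℝ) ^ δ ≤ 2 ^ (1:ℝ) := Real.rpow_le_rpow_of_exponent_le (by norm_num) (by linarith)
            _ = 2 := Real.rpow_one 2
        have h12 : X ^ (c * δ) ≤ X ^ ((1 - η) * δ) :=
          Real.rpow_le_rpow_of_exponent_le n4 (by nlinarith)
        gcongr
      rw [Real.rpow_neg hN0.le]
      have h13 : 0 < E⁻¹ / 2 := by positivity
      calc ((N:ℝ) ^ δ)⁻¹ ≤ (E⁻¹ / 2)⁻¹ := inv_anti₀ h13 (h10.trans h9)
        _ = 2 * E := by field_simp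
    have h11 : δ ^ (-(κ ^ 2)) ≤ D / c3 := by rw [le_div_iff₀ hc3]; linarith
    have h12 : DD κ (δ / 2) ≤ C2 * (2 ^ (κ ^ 2) * (D / c3)) := by
      rw [h7] at h6
      refine h6.trans ?_
      gcongr
    have h13 : 0 ≤ DD κ (δ / 2) := by linarith [DD_ge_one k1 (show 0 < δ / 2 by linarith)]
    calc X * (D - Sd κ δ N) ≤ X * ((N:ℝ) ^ (-δ) * DD κ (δ / 2)) := by gcongr
      _ ≤ X * ((2 * E) * (C2 * (2 ^ (κ ^ 2) * (D / c3)))) := by gcongr
      _ = _ := by ring
  have q1 := abs_le.mp p1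
  have q2 := abs_le.mp p2
  have q3 := abs_le.mp p3
  rw [abs_le]
  constructor <;> nlinarith [q1.1, q1.2, q2.1, q2.2, q3.1, q3.2]

/-- **The moments of rational order with an exponential rate.** -/
theorem rate {P q : ℕ} (hq : 2 ≤ q) (hP1 : 1 ≤ P) (hP : P ≤ 2 * q) {c r : ℝ} (hc : 0 < c) (hr : 0 < r)
    (hr1 : r ≤ 1 / 16) (hcr : c * (q + 2 * r) < 2) :
    ∃ C : ℝ, 0 < C ∧ ∀ x : ℝ, ∀ᶠ T : ℝ in atTop, ∀ δ : ℝ, 1 / Real.log T ≤ δ → δ ≤ r →
      |mom (2 * ((P:ℝ) / q)) (1 / 2 + δ) x T / DD ((P:ℝ) / q) δ - 1| ≤ C * T ^ (-(c * δ)) := by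
  obtain ⟨C0, hC0, hb⟩ := base hq hP1 hP hc hr hr1 hcr
  obtain ⟨k1, k2⟩ := kap hq hP1 hP
  set κ : ℝ := (P:ℝ) / q with hκ
  refine ⟨4 * C0 + 2, by positivity, fun x => ?_⟩
  obtain ⟨Cx, hCx0, hCx⟩ := small_x x k1
  have hq2 : (2:ℝ) ≤ q := by exact_mod_cast hq
  have hcr1 : c * r < 1 := by nlinarith
  have h1 : Tendsto (fun T : ℝ => T + x) atTop atTop := tendsto_atTop_add_const_right _ _ tendsto_id
  have hsm := small_pow (-(1 - c * r)) 0 (Cx + |x|) (by linarith)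
  filter_upwards [h1.eventually hb, hsm, eventually_ge_atTop 4, eventually_ge_atTop (2 * |x|)] with T g1 g2 g3 g4 δ hδ1 hδ2
  have hx1 := neg_abs_le x
  have hx2 := le_abs_self x
  have hT0 : 0 < T := by linarith
  have hTx : T / 2 ≤ T + x := by linarith
  have hTx2 : T + x ≤ 2 * T := by linarith
  have hL0 : 0 < Real.log T := Real.log_pos (by linarith)
  have hL1 : 0 < Real.log (T + x) := Real.log_pos (by linarith)
  have hδ : 0 < δ := lt_of_lt_of_le (by positivity) hδ1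
  have hlog : Real.log T ≤ 2 * Real.log (T + x) := by
    have h4 : T ≤ (T + x) ^ 2 := by nlinarith
    have h5 := Real.log_le_log hT0 h4
    rw [Real.log_pow] at h5
    exact_mod_cast h5
  have hδ3 : 1 / (2 * Real.log (T + x)) ≤ δ := by
    refine le_trans ?_ hδ1
    exact one_div_le_one_div_of_le hL0 hlog
  have g5 := g1 δ hδ3 hδ2
  have hD1 := DD_ge_one k1 hδ
  set D := DD κ δ with hD
  have hD0 : 0 < D := by linarith
  have hcδ : c * δ ≤ c * r := by nlinarith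
  set E := T ^ (-(c * δ)) with hE
  have hE0 : 0 < E := Real.rpow_pos_of_pos hT0 _
  have hEx : (T + x) ^ (-(c * δ)) ≤ 2 * E := by
    have h5 : (T + x) ^ (-(c * δ)) ≤ (T / 2) ^ (-(c * δ)) :=
      Real.rpow_le_rpow_of_nonpos (by linarith) hTx (by nlinarith)
    refine h5.trans ?_
    rw [Real.div_rpow hT0.le (by norm_num), Real.rpow_neg (by norm_num : (0:ℝ) ≤ 2), div_inv_eq_mul, mul_comm]
    refine mul_le_mul_of_nonneg_right ?_ hE0.le
    calc (2:ℝ) ^ (c * δ) ≤ 2 ^ (1:ℝ) := Real.rpow_le_rpow_of_exponent_le (by norm_num) (by linarith)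
      _ = 2 := Real.rpow_one 2
  have hsmall : Cx + |x| ≤ T * E := by
    rw [Real.rpow_zero, mul_one] at g2
    have h5 : T ^ (-(1 - c * r)) * T ^ (1 - c * r) = 1 := by
      rw [← Real.rpow_add hT0]; simp
    have h6 : 0 < T ^ (1 - c * r) := Real.rpow_pos_of_pos hT0 _
    have h7 : Cx + |x| ≤ T ^ (1 - c * r) := by
      calc Cx + |x| = (Cx + |x|) * (T ^ (-(1 - c * r)) * T ^ (1 - c * r)) := by rw [h5, mul_one]
        _ = ((Cx + |x|) * T ^ (-(1 - c * r))) * T ^ (1 - c * r) := by ring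
        _ ≤ 1 * T ^ (1 - c * r) := mul_le_mul_of_nonneg_right g2 h6.le
        _ = _ := one_mul _
    refine h7.trans ?_
    have h8 : T * E = T ^ (1 - c * δ) := by
      rw [hE]
      nth_rewrite 1 [← Real.rpow_one T]
      rw [← Real.rpow_add hT0]; congr 1
    rw [h8]
    exact Real.rpow_le_rpow_of_exponent_le (by linarith) (by linarith)
  have hi : ∀ a b : ℝ, IntervalIntegrable (fun t => zn (1 / 2 + δ) t ^ (2 * κ)) volume a b := fun a b =>
    (znp_cont' (by linarith) (by linarith)).intervalIntegrable _ _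
  have g6 := intervalIntegral.integral_add_adjacent_intervals (hi 0 x) (hi x (T + x))
  have g7 := hCx δ hδ (by linarith)
  rw [mom_eq _ _ _ hT0]
  set I := ∫ t in x..(T + x), zn (1 / 2 + δ) t ^ (2 * κ) with hI
  set I0 := ∫ t in (0:ℝ)..x, zn (1 / 2 + δ) t ^ (2 * κ) with hI0
  rw [← g6] at g5
  have hkey : |I - T * D| ≤ (4 * C0 + 2) * E * (T * D) := by
    have a1 := abs_le.mp g5
    have a2 := abs_le.mp g7
    have a3 : C0 * (T + x) ^ (-(c * δ)) * ((T + x) * D) ≤ C0 * (2 * E) * (2 * T * D) :=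
      mul_le_mul (mul_le_mul_of_nonneg_left hEx hC0.le) (mul_le_mul_of_nonneg_right hTx2 hD0.le)
        (mul_nonneg (by linarith) hD0.le) (by positivity)
    have a4 : |x| * D ≤ (T * E) * D := mul_le_mul_of_nonneg_right (by linarith) hD0.le
    have a5 : Cx ≤ (T * E) * D := by
      have : T * E ≤ (T * E) * D := le_mul_of_one_le_right (by positivity) hD1
      linarith [abs_nonneg x]
    have a6 : |x * D| ≤ |x| * D := by rw [abs_mul, abs_of_pos hD0]
    have a7 := abs_le.mp a6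
    rw [abs_le]
    constructor <;> nlinarith [a1.1, a1.2, a2.1, a2.2, a7.1, a7.2]
  have e1 : T⁻¹ * I / D - 1 = (I - T * D) / (T * D) := by field_simp
  rw [e1, abs_div, abs_of_pos (by positivity : 0 < T * D), div_le_iff₀ (by positivity)]
  exact hkey

end Pool.Agent.KS6_29
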