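import Pool.Agent.KS6_29.Base

set_option autoImplicit false

/-! The moments over `[0, X]`. -/

namespace Pool.Agent.KS6_29

open MeasureTheory Finset Filter Topology Pool.Agent.H306R2 Pool.Agent.W184
open Pool.Agent.Y755 (DD g2 DD_low DD_asym DD_ge_one g2_summable g2_nonneg wδ)

/-- the Dirichlet polynomial for `ζ^(P/q)` -/
noncomputable def DK (P q N : ℕ) (s : ℂ) : ℂ := DS (dv ((P:ℝ) / (q:ℝ))) N s

/-- its `q`-th power -/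
noncomputable def WK (P q N : ℕ) (s : ℂ) : ℂ := DK P q N s ^ q

lemma DK_diff (P q N : ℕ) : Differentiable ℂ (DK P q N) := DS_differentiable _ _

lemma WK_diff (P q N : ℕ) : Differentiable ℂ (WK P q N) := (DK_diff P q N).pow q

lemma dv_le_sq {κ : ℝ} (h0 : 0 ≤ κ) (h2 : κ ≤ 2) (n : ℕ) : dv κ n ≤ (n:ℝ) ^ 2 := by
  have h := PB_dA h0 (J := 2) (by exact_mod_cast h2) n
  rw [dA_apply] at h
  exact (le_abs_self _).trans h

lemma DK_le {P q : ℕ} (hq : 1 ≤ q) (hP : P ≤ 2 * q) {N : ℕ} {s : ℂ} (hs : 0 ≤ s.re) :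
    ‖DK P q N s‖ ≤ (N:ℝ) ^ 3 := by
  have hq0 : (0:ℝ) < q := by exact_mod_cast hq
  have hκ : (P:ℝ) / q ≤ 2 := by
    rw [div_le_iff₀ hq0]; exact_mod_cast hP
  unfold DK DS
  calc ‖∑ n ∈ Icc 1 N, (dv ((P:ℝ) / q) n : ℂ) * (n:ℂ) ^ (-s)‖ ≤
      ∑ n ∈ Icc 1 N, ‖(dv ((P:ℝ) / q) n : ℂ) * (n:ℂ) ^ (-s)‖ := norm_sum_le _ _
    _ ≤ ∑ n ∈ Icc 1 N, (N:ℝ) ^ 2 := by
        refine sum_le_sum fun n hn => ?_
        rw [mem_Icc] at hn
        have hn0 : (0:ℝ) < n := by exact_mod_cast hn.1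
        have hn1 : (1:ℝ) ≤ n := by exact_mod_cast hn.1
        have hnN : (n:ℝ) ≤ N := by exact_mod_cast hn.2
        rw [norm_mul, Complex.norm_real, Real.norm_of_nonneg (dv_nonneg (by positivity) n),
          Complex.norm_natCast_cpow_of_pos hn.1]
        have h1 : (n:ℝ) ^ (-s).re ≤ 1 :=
          Real.rpow_le_one_of_one_le_of_nonpos hn1 (by simpa using hs)
        have h2 := dv_le_sq (κ := (P:ℝ) / q) (by positivity) hκ n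
        calc dv ((P:ℝ) / q) n * (n:ℝ) ^ (-s).re ≤ (n:ℝ) ^ 2 * 1 :=
              mul_le_mul h2 h1 (by positivity) (by positivity)
          _ ≤ (N:ℝ) ^ 2 := by rw [mul_one]; gcongr
    _ = (N:ℝ) ^ 3 := by
        rw [sum_const, Nat.card_Icc, nsmul_eq_mul]; simp; ring

lemma two_div_q {q : ℕ} (hq : 2 ≤ q) : 0 < 2 / (q:ℝ) ∧ 2 / (q:ℝ) ≤ 1 := by
  have hq0 : (2:ℝ) ≤ q := by exact_mod_cast hq
  exact ⟨by positivity, by rw [div_le_one (by linarith)]; exact hq0⟩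

lemma pow_rpow {a : ℝ} (ha : 0 ≤ a) {q : ℕ} (hq : 2 ≤ q) (P : ℕ) :
    (a ^ P) ^ (2 / (q:ℝ)) = a ^ (2 * ((P:ℝ) / q)) := by
  rw [← Real.rpow_natCast, ← Real.rpow_mul ha]
  congr 1; ring

lemma pow_rpow_q {a : ℝ} (ha : 0 ≤ a) {q : ℕ} (hq : 2 ≤ q) :
    (a ^ q) ^ (2 / (q:ℝ)) = a ^ 2 := by
  have hq0 : (q:ℝ) ≠ 0 := by exact_mod_cast (by omega : q ≠ 0)
  rw [pow_rpow ha hq, div_self hq0, mul_one]
  exact_mod_cast Real.rpow_natCast a 2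

lemma rp_norm (z w : ℂ) (P : ℕ) {q : ℕ} (hq : 2 ≤ q) :
    ‖z ^ P - w ^ q‖ ^ (2 / (q:ℝ)) ≤ ‖z‖ ^ (2 * ((P:ℝ) / q)) + ‖w‖ ^ 2 := by
  obtain ⟨h1, h2⟩ := two_div_q hq
  rw [← pow_rpow (norm_nonneg z) hq, ← pow_rpow_q (norm_nonneg w) hq, ← norm_pow, ← norm_pow]
  exact (Real.rpow_le_rpow (norm_nonneg _) (norm_sub_le _ _) h1.le).trans
    (add_rpow_le' (norm_nonneg _) (norm_nonneg _) h1.le h2)

lemma rp_diff (z w : ℂ) (P : ℕ) {q : ℕ} (hq : 2 ≤ q) :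
    |‖z‖ ^ (2 * ((P:ℝ) / q)) - ‖w‖ ^ 2| ≤ ‖z ^ P - w ^ q‖ ^ (2 / (q:ℝ)) := by
  obtain ⟨h1, h2⟩ := two_div_q hq
  rw [← pow_rpow (norm_nonneg z) hq, ← pow_rpow_q (norm_nonneg w) hq, ← norm_pow, ← norm_pow, abs_le]
  constructor
  · have h3 : ‖w ^ q‖ ^ (2 / (q:ℝ)) ≤ ‖z ^ P‖ ^ (2 / (q:ℝ)) + ‖z ^ P - w ^ q‖ ^ (2 / (q:ℝ)) := by
      refine (Real.rpow_le_rpow (norm_nonneg _) ?_ h1.le).trans
        (add_rpow_le' (norm_nonneg _) (norm_nonneg _) h1.le h2)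
      have := norm_sub_le (z ^ P) (z ^ P - w ^ q)
      rwa [sub_sub_cancel] at this
    linarith
  · have h3 : ‖z ^ P‖ ^ (2 / (q:ℝ)) ≤ ‖w ^ q‖ ^ (2 / (q:ℝ)) + ‖z ^ P - w ^ q‖ ^ (2 / (q:ℝ)) := by
      refine (Real.rpow_le_rpow (norm_nonneg _) ?_ h1.le).trans
        (add_rpow_le' (norm_nonneg _) (norm_nonneg _) h1.le h2)
      have := norm_add_le (w ^ q) (z ^ P - w ^ q)
      rwa [add_sub_cancel] at this
    linarith

/-- `|D|^2` on the line `Re s = σ` -/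
noncomputable def dk (P q N : ℕ) (σ t : ℝ) : ℝ := ‖DK P q N ((σ : ℂ) + t * Complex.I)‖ ^ 2

lemma dk_cont (P q N : ℕ) (σ : ℝ) : Continuous (dk P q N σ) := by
  unfold dk
  exact ((DK_diff P q N).continuous.comp (by fun_prop : Continuous fun t : ℝ => (σ : ℂ) + t * Complex.I)).norm.pow 2

lemma dk_nonneg (P q N : ℕ) (σ t : ℝ) : 0 ≤ dk P q N σ t := by unfold dk; positivity

lemma qP_le (P N : ℕ) {q : ℕ} (hq : 2 ≤ q) (σ t : ℝ) :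
    qP P (WK P q N) (2 / (q:ℝ)) σ t ≤ zn σ t ^ (2 * ((P:ℝ) / q)) + dk P q N σ t := rp_norm _ _ P hq

lemma qP_diff (P N : ℕ) {q : ℕ} (hq : 2 ≤ q) (σ t : ℝ) :
    |zn σ t ^ (2 * ((P:ℝ) / q)) - dk P q N σ t| ≤ qP P (WK P q N) (2 / (q:ℝ)) σ t := rp_diff _ _ P hq

lemma kap {P q : ℕ} (hq : 2 ≤ q) (hP1 : 1 ≤ P) (hP : P ≤ 2 * q) : 0 < (P:ℝ) / q ∧ (P:ℝ) / q ≤ 2 := by
  have hq0 : (0:ℝ) < q := by exact_mod_cast (by omega : 0 < q)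
  have hP0 : (0:ℝ) < P := by exact_mod_cast hP1
  exact ⟨by positivity, by rw [div_le_iff₀ hq0]; exact_mod_cast hP⟩

/-- growth on the critical line -/
lemma qP_growth {P q N : ℕ} (hq : 2 ≤ q) (hP1 : 1 ≤ P) (hP : P ≤ 2 * q) (hN : 1 ≤ N) (x : ℝ) :
    qP P (WK P q N) (2 / (q:ℝ)) (1 / 2) x ≤ (4 * 12 ^ 4 + (N:ℝ) ^ 6) * (1 + x ^ 2) ^ 2 := by
  obtain ⟨k1, k2⟩ := kap hq hP1 hP
  refine (qP_le P N hq _ _).trans ?_
  have h1 : zn (1 / 2) x ^ (2 * ((P:ℝ) / q)) ≤ 4 * 12 ^ 4 * (1 + x ^ 2) ^ 2 := by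
    have h2 := zn_le' (σ := 1 / 2) (t := x) (by norm_num) (by norm_num)
    have h3 : (1:ℝ) ≤ 12 * (1 + |x|) := by
      have := abs_nonneg x; linarith
    calc zn (1 / 2) x ^ (2 * ((P:ℝ) / q)) ≤ (12 * (1 + |x|)) ^ (2 * ((P:ℝ) / q)) :=
          Real.rpow_le_rpow (zn_nonneg _ _) h2 (by positivity)
      _ ≤ (12 * (1 + |x|)) ^ (4:ℝ) := Real.rpow_le_rpow_of_exponent_le h3 (by linarith)
      _ = (12 * (1 + |x|)) ^ 4 := by exact_mod_cast Real.rpow_natCast (12 * (1 + |x|)) 4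
      _ = 12 ^ 4 * ((1 + |x|) ^ 2) ^ 2 := by ring
      _ ≤ 12 ^ 4 * (2 * (1 + x ^ 2)) ^ 2 := by
          have h5 : (1 + |x|) ^ 2 ≤ 2 * (1 + x ^ 2) := by nlinarith [sq_abs x, sq_nonneg (|x| - 1)]
          gcongr
      _ = _ := by ring
  have h4 : dk P q N (1 / 2) x ≤ (N:ℝ) ^ 6 := by
    unfold dk
    calc ‖DK P q N (((1 / 2 : ℝ) : ℂ) + x * Complex.I)‖ ^ 2 ≤ ((N:ℝ) ^ 3) ^ 2 :=
          pow_le_pow_left₀ (norm_nonneg _) (DK_le (by omega) hP (by simp)) 2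
      _ = _ := by ring
  have h6 : (1:ℝ) ≤ (1 + x ^ 2) ^ 2 := one_le_pow₀ (by nlinarith [sq_nonneg x])
  nlinarith [mul_le_mul_of_nonneg_left h6 (show (0:ℝ) ≤ (N:ℝ) ^ 6 by positivity)]

lemma dk_mv (P q N : ℕ) (δ A B : ℝ) :
    |(∫ t in A..B, dk P q N (1 / 2 + δ) t) - (B - A) * Sd ((P:ℝ) / q) δ N| ≤
      4 * (N * (1 + Real.log N)) * Sd ((P:ℝ) / q) δ N := mv_DS_gen _ _ _ _ _

lemma int_add_le' {f g h : ℝ → ℝ} (hf : Continuous f) (hg : Continuous g) (hh : Continuous h)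
    {a b : ℝ} (hab : a ≤ b) (H : ∀ x, f x ≤ g x + h x) :
    ∫ t in a..b, f t ≤ (∫ t in a..b, g t) + ∫ t in a..b, h t := by
  rw [← intervalIntegral.integral_add (hg.intervalIntegrable _ _) (hh.intervalIntegrable _ _)]
  exact intervalIntegral.integral_mono_on hab (hf.intervalIntegrable _ _)
    ((hg.add hh).intervalIntegrable _ _) fun x _ => H x

lemma znp_cont' {σ b : ℝ} (hσ : σ < 1) (hb : 0 < b) : Continuous fun t => zn σ t ^ b :=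
  (zn_cont hσ).rpow_const fun _ => Or.inr hb.le

/-- `y^s e^{-ay}` is bounded -/
lemma pow_exp {s a y : ℝ} (hs : 0 < s) (ha : 0 < a) (hy : 0 ≤ y) : y ^ s ≤ (s / a) ^ s * Real.exp (a * y) := by
  have h1 : a * y / s ≤ Real.exp (a * y / s) := by linarith [Real.add_one_le_exp (a * y / s)]
  have h2 : y = s / a * (a * y / s) := by field_simp
  calc y ^ s = (s / a) ^ s * (a * y / s) ^ s := by
        conv_lhs => rw [h2]
        rw [Real.mul_rpow (by positivity) (by positivity)]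
    _ ≤ (s / a) ^ s * (Real.exp (a * y / s)) ^ s := by gcongr
    _ = _ := by
        rw [← Real.exp_mul]
        congr 2; field_simp

end Pool.Agent.KS6_29
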